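import Pool.Agent.X88.PC.Mean

set_option autoImplicit false

/-!
Bounds for the logarithm of the partition sum, comparison of means, convergence in probability.
-/

open Finset MeasureTheory Filter
open scoped Topology

namespace Pool.Agent.X88.PC

theorem ham_abs (u : ℕ → ℝ) (h : ℝ) (n : ℕ) (w : ℕ → ℤ) :
    |ham u h n w| ≤ ∑ i ∈ range n, |u i| + |h| * n := by
  unfold ham
  refine (Finset.abs_sum_le_sum_abs _ _).trans ?_
  have h1 : ∑ i ∈ range n, |u i| + |h| * n = ∑ i ∈ range n, (|u i| + |h|) := by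
    rw [Finset.sum_add_distrib]
    simp [mul_comm]
  rw [h1]
  refine Finset.sum_le_sum fun i _ => ?_
  refine (abs_add_le _ _).trans (add_le_add ?_ ?_)
  · split_ifs
    · exact le_rfl
    · simp
  · rw [abs_mul]
    have h2 : |((Int.sign (w i + w (i + 1)) : ℤ) : ℝ)| ≤ 1 := by
      rcases lt_trichotomy (w i + w (i + 1)) 0 with h3 | h3 | h3
      · rw [Int.sign_eq_neg_one_of_neg h3]; simp
      · rw [h3]; simp
      · rw [Int.sign_eq_one_of_pos h3]; simp
    calc |h| * _ ≤ |h| * 1 := mul_le_mul_of_nonneg_left h2 (abs_nonneg h)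
      _ = |h| := mul_one _

theorem PS_one_zero (n : ℕ) (c : ℝ) :
    ∑ _e : Fin n → Bool, Real.exp c = 2 ^ n * Real.exp c := by
  rw [Finset.sum_const, Finset.card_univ]
  simp

theorem logV_upper (u : ℕ → ℝ) (h : ℝ) (hh : 0 ≤ h) (n : ℕ) :
    Real.log (V u h n 0) ≤ n * Real.log 2 + h * n + ∑ i ∈ range n, |u i| := by
  have h1 : V u h n 0 ≤ 2 ^ n * Real.exp (∑ i ∈ range n, |u i| + h * n) := by
    rw [← PS_one_zero]
    unfold V PS
    refine Finset.sum_le_sum fun e _ => ?_
    rw [mul_one]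
    apply Real.exp_le_exp.2
    have := ham_abs u h n (walk 0 e)
    rw [abs_of_nonneg hh] at this
    exact (le_abs_self _).trans this
  have h2 := Real.log_le_log (V_pos _ _ _ _) h1
  rw [Real.log_mul (by positivity) (Real.exp_pos _).ne', Real.log_pow, Real.log_exp] at h2
  linarith

theorem logV_abs (u : ℕ → ℝ) (h : ℝ) (n : ℕ) :
    |Real.log (V u h n 0)| ≤ n * Real.log 2 + |h| * n + ∑ i ∈ range n, |u i| := by
  have h1 : V u h n 0 ≤ 2 ^ n * Real.exp (∑ i ∈ range n, |u i| + |h| * n) := by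
    rw [← PS_one_zero]
    unfold V PS
    refine Finset.sum_le_sum fun e _ => ?_
    rw [mul_one]
    exact Real.exp_le_exp.2 ((le_abs_self _).trans (ham_abs u h n (walk 0 e)))
  have h2 : 2 ^ n * Real.exp (-(∑ i ∈ range n, |u i| + |h| * n)) ≤ V u h n 0 := by
    rw [← PS_one_zero]
    unfold V PS
    refine Finset.sum_le_sum fun e _ => ?_
    rw [mul_one]
    exact Real.exp_le_exp.2 (neg_le_of_abs_le (ham_abs u h n (walk 0 e)))
  have h3 := Real.log_le_log (V_pos _ _ _ _) h1
  have h4 := Real.log_le_log (by positivity) h2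
  rw [Real.log_mul (by positivity) (Real.exp_pos _).ne', Real.log_pow, Real.log_exp] at h3 h4
  have h5 : 0 ≤ n * Real.log 2 := by positivity
  rw [abs_le]
  constructor <;> linarith

theorem logV_lower (u : ℕ → ℝ) (h : ℝ) (n : ℕ) (hn : 1 ≤ n) :
    n * Real.log 2 + h * n - Real.log (2 * n) ≤ Real.log (V u h n 0) := by
  have hn' : (0 : ℝ) < n := by exact_mod_cast hn
  have h1 := Real.log_le_log (by positivity) (V_ge u h n hn)
  rw [Real.log_div (by positivity) (by positivity), Real.log_mul (Real.exp_pos _).ne'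
    (by positivity), Real.log_pow, Real.log_exp] at h1
  linarith

/-- normalised logarithm -/
noncomputable def LZ (lam s h : ℝ) (n : ℕ) (y : ℕ → ℝ) : ℝ :=
  Real.log (V (rew lam s y) h n 0) - h * n - n * Real.log 2

theorem LZ_measurable (lam s h : ℝ) (n : ℕ) : Measurable (LZ lam s h n) := by
  unfold LZ
  exact ((Real.measurable_log.comp (V_measurable lam s h n)).sub_const _).sub_const _

theorem LZ_le (lam s h : ℝ) (hh : 0 ≤ h) (n : ℕ) (y : ℕ → ℝ) :
    LZ lam s h n y ≤ ∑ i ∈ range n, |rew lam s y i| := by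
  have := logV_upper (rew lam s y) h hh n
  unfold LZ
  linarith

theorem LZ_ge (lam s h : ℝ) (n : ℕ) (hn : 1 ≤ n) (y : ℕ → ℝ) :
    -Real.log (2 * n) ≤ LZ lam s h n y := by
  have := logV_lower (rew lam s y) h n hn
  unfold LZ
  linarith

variable (μ : Measure ℝ) [IsProbabilityMeasure μ]

theorem rew_abs_integrable (lam s : ℝ) (hx : Integrable (fun x : ℝ => |x|) μ) (i : ℕ) :
    Integrable (fun y : ℕ → ℝ => |rew lam s y i|) (nu μ) := by
  have h1 : Integrable (fun x : ℝ => |lam| * (1 + |s| * |x|)) μ :=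
    ((integrable_const (1 : ℝ)).add (hx.const_mul _)).const_mul _
  have h2 := (integral_coord μ i _ h1 (by fun_prop)).1
  refine Integrable.mono' h2 ?_ (Eventually.of_forall fun y => ?_)
  · unfold rew
    exact (measurable_const.mul (measurable_const.add (measurable_const.mul
      (measurable_pi_apply i)))).abs.aestronglyMeasurable
  · rw [Real.norm_eq_abs, abs_abs]
    unfold rew
    rw [abs_mul]
    apply mul_le_mul_of_nonneg_left _ (abs_nonneg _)
    refine (abs_add_le _ _).trans ?_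
    rw [abs_mul]
    simp

theorem LZ_integrable (lam s h : ℝ) (hx : Integrable (fun x : ℝ => |x|) μ) (n : ℕ) :
    Integrable (LZ lam s h n) (nu μ) := by
  have h1 : Integrable (fun y : ℕ → ℝ => n * Real.log 2 + |h| * n +
      ∑ i ∈ range n, |rew lam s y i|) (nu μ) :=
    (integrable_const _).add (integrable_finsetSum _ fun i _ => rew_abs_integrable μ lam s hx i)
  have h2 : Integrable (fun y : ℕ → ℝ => Real.log (V (rew lam s y) h n 0)) (nu μ) := by
    refine Integrable.mono' h1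
      (Real.measurable_log.comp (V_measurable lam s h n)).aestronglyMeasurable
      (Eventually.of_forall fun y => ?_)
    rw [Real.norm_eq_abs]
    exact logV_abs _ _ _
  unfold LZ
  exact (h2.sub (integrable_const _)).sub (integrable_const _)

/-- comparison of the means -/
theorem mean_cmp (s lam0 lam1 A q h0 h1 : ℝ) (hs : 0 ≤ s) (hl0 : 0 ≤ lam0) (hl : lam0 ≤ lam1)
    (hh : h0 ≤ h1)
    (hx : Integrable (fun x : ℝ => |x|) μ)
    (hint : Integrable (fun x => (1 + s * |x|) * (1 + Real.exp (lam1 * s * |x|))) μ)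
    (hA : ∫ x, (1 + s * |x|) * (1 + Real.exp (lam1 * s * |x|)) ∂μ ≤ A)
    (hq : 0 < q) (hq2 : q ≤ μ.real (Set.Ici 0))
    (hc : (lam1 - lam0) * (A / q * (1 + 4 * (A / q))) ≤ (2 * (h1 - h0)) / (1 + Real.exp (4 * h1)))
    (n : ℕ) :
    ∫ y, LZ lam1 s h1 n y ∂(nu μ) ≤ ∫ y, LZ lam0 s h0 n y ∂(nu μ) + 2 * (lam1 - lam0) * A := by
  have hl1 : 0 ≤ lam1 := hl0.trans hl
  have hA0 : 0 ≤ A := le_trans (integral_nonneg fun x => by positivity) hA
  set C3 := A / q * (1 + 4 * (A / q)) with hC3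
  have hC3n : 0 ≤ C3 := by positivity
  set c := (2 * (h1 - h0)) / (1 + Real.exp (4 * h1)) with hcdef
  have hd : 0 ≤ lam1 - lam0 := by linarith
  have hbd : ∀ (j : ℕ) (y : ℕ → ℝ),
      |(1 + s * y j) * av (rew lam1 s y) h1 n (oP (j + 1))| ≤ 1 + s * |y j| := by
    intro j y
    rw [abs_mul, abs_of_nonneg (av_nonneg _ _ _ _ (oP_nonneg _))]
    have h3 : |1 + s * y j| ≤ 1 + s * |y j| := by
      refine (abs_add_le _ _).trans ?_
      rw [abs_mul, abs_of_nonneg hs]
      simp
    calc |1 + s * y j| * _ ≤ (1 + s * |y j|) * 1 :=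
          mul_le_mul h3 (av_le_one _ _ _ _ (oP_le _)) (av_nonneg _ _ _ _ (oP_nonneg _))
            (by positivity)
      _ = _ := mul_one _
  have hx1 : Integrable (fun x : ℝ => 1 + s * |x|) μ := (integrable_const (1 : ℝ)).add (hx.const_mul s)
  have hi1 : ∀ j, Integrable (fun y : ℕ → ℝ =>
      (1 + s * y j) * av (rew lam1 s y) h1 n (oP (j + 1))) (nu μ) := by
    intro j
    have h2 := (integral_coord μ j _ hx1 (by fun_prop)).1
    refine Integrable.mono' h2 ?_ (Eventually.of_forall fun y => ?_)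
    · exact ((measurable_const.add (measurable_const.mul (measurable_pi_apply j))).mul
        (av_measurable _ _ _ _ _)).aestronglyMeasurable
    · rw [Real.norm_eq_abs]
      exact hbd j y
  set a : ℕ → ℝ := fun j => ∫ y, (1 + s * y j) * av (rew lam1 s y) h1 n (oP (j + 1)) ∂(nu μ) with ha
  set b : ℕ → ℝ := fun j => ∫ y, av (rew lam1 s y) h1 n (oY (j + 1)) ∂(nu μ) with hb
  have hbn : ∀ j, 0 ≤ b j := fun j => integral_nonneg fun y => av_nonneg _ _ _ _ (oY_nonneg _)
  have haA : ∀ j, a j ≤ A := by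
    intro j
    obtain ⟨i2, e2⟩ := integral_coord μ j _ hx1 (by fun_prop)
    have h3 : a j ≤ ∫ y : ℕ → ℝ, (1 + s * |y j|) ∂(nu μ) :=
      integral_mono (hi1 j) i2 fun y => (le_abs_self _).trans (hbd j y)
    rw [e2] at h3
    refine h3.trans (le_trans ?_ hA)
    refine integral_mono hx1 hint fun x => ?_
    have h4 : 0 ≤ (1 + s * |x|) * Real.exp (lam1 * s * |x|) := by positivity
    simp only
    linarith
  have hab : ∀ j, j + 2 < n → a j ≤ C3 * b j := fun j hj =>
    stepC μ s lam1 A q h1 hs hl1 hint hA hq hq2 n hi1 j hj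
  have hsum : ∑ j ∈ range n, a j ≤ ∑ j ∈ range (n - 2), C3 * b j + 2 * A := by
    rcases Nat.lt_or_ge n 2 with hn | hn
    · have h3 : ∑ j ∈ range n, a j ≤ ∑ _j ∈ range n, A := Finset.sum_le_sum fun j _ => haA j
      rw [Finset.sum_const, Finset.card_range, nsmul_eq_mul] at h3
      have h4 : (n : ℝ) ≤ 2 := by exact_mod_cast hn.le
      have h5 : n - 2 = 0 := by omega
      rw [h5, Finset.range_zero, Finset.sum_empty]
      have := mul_le_mul_of_nonneg_right h4 hA0
      linarith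
    · obtain ⟨m, rfl⟩ : ∃ m, n = m + 2 := ⟨n - 2, by omega⟩
      rw [Finset.sum_range_succ, Finset.sum_range_succ]
      have h3 : ∑ j ∈ range m, a j ≤ ∑ j ∈ range m, C3 * b j :=
        Finset.sum_le_sum fun j hj => hab j (by rw [Finset.mem_range] at hj; omega)
      have h4 := haA m
      have h5 := haA (m + 1)
      simp only [Nat.add_sub_cancel]
      linarith
  -- pathwise
  have hpath : ∀ y, LZ lam1 s h1 n y ≤ LZ lam0 s h0 n y +
      (∑ j ∈ range n, (lam1 - lam0) * ((1 + s * y j) * av (rew lam1 s y) h1 n (oP (j + 1)))) -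
      c * ∑ j ∈ range (n - 2), av (rew lam1 s y) h1 n (oY (j + 1)) := by
    intro y
    have h3 := compare (rew lam1 s y) (rew lam0 s y) h1 h0 hh n
    have h4 : ∑ j ∈ range n, (rew lam1 s y j - rew lam0 s y j) *
        av (rew lam1 s y) h1 n (oP (j + 1)) = ∑ j ∈ range n, (lam1 - lam0) *
        ((1 + s * y j) * av (rew lam1 s y) h1 n (oP (j + 1))) := by
      refine Finset.sum_congr rfl fun j _ => ?_
      unfold rew
      ring
    rw [h4] at h3
    unfold LZ
    linarith
  have hI1 := LZ_integrable μ lam1 s h1 hx n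
  have hI0 := LZ_integrable μ lam0 s h0 hx n
  have hIa : Integrable (fun y : ℕ → ℝ => ∑ j ∈ range n, (lam1 - lam0) *
      ((1 + s * y j) * av (rew lam1 s y) h1 n (oP (j + 1)))) (nu μ) :=
    integrable_finsetSum _ fun j _ => (hi1 j).const_mul _
  have hIb : Integrable (fun y : ℕ → ℝ => c * ∑ j ∈ range (n - 2),
      av (rew lam1 s y) h1 n (oY (j + 1))) (nu μ) :=
    (integrable_finsetSum _ fun j _ =>
      av_integrable μ lam1 s h1 n _ (oY_nonneg _) (oY_le _)).const_mul _
  have h5 := integral_mono hI1 ((hI0.add hIa).sub hIb) hpath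
  have h6 : ∫ y, (LZ lam0 s h0 n y + (∑ j ∈ range n, (lam1 - lam0) *
      ((1 + s * y j) * av (rew lam1 s y) h1 n (oP (j + 1)))) -
      c * ∑ j ∈ range (n - 2), av (rew lam1 s y) h1 n (oY (j + 1))) ∂(nu μ) =
      ∫ y, LZ lam0 s h0 n y ∂(nu μ) + (lam1 - lam0) * ∑ j ∈ range n, a j -
        c * ∑ j ∈ range (n - 2), b j := by
    have e1 : ∫ y, (LZ lam0 s h0 n y + (∑ j ∈ range n, (lam1 - lam0) *
      ((1 + s * y j) * av (rew lam1 s y) h1 n (oP (j + 1)))) -
      c * ∑ j ∈ range (n - 2), av (rew lam1 s y) h1 n (oY (j + 1))) ∂(nu μ) =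
      ∫ y, LZ lam0 s h0 n y ∂(nu μ) + ∫ y, (∑ j ∈ range n, (lam1 - lam0) *
      ((1 + s * y j) * av (rew lam1 s y) h1 n (oP (j + 1)))) ∂(nu μ) -
      ∫ y, (c * ∑ j ∈ range (n - 2), av (rew lam1 s y) h1 n (oY (j + 1))) ∂(nu μ) := by
      refine (integral_sub (hI0.add hIa) hIb).trans ?_
      congr 1
      exact integral_add hI0 hIa
    have e2 : ∑ j ∈ range n, ∫ y, (lam1 - lam0) *
        ((1 + s * y j) * av (rew lam1 s y) h1 n (oP (j + 1))) ∂(nu μ) =
        (lam1 - lam0) * ∑ j ∈ range n, a j := by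
      rw [Finset.mul_sum]
      refine Finset.sum_congr rfl fun j _ => ?_
      rw [integral_const_mul]
    rw [e1, integral_const_mul, integral_finsetSum _ (fun j _ => (hi1 j).const_mul _),
      integral_finsetSum _ (fun j _ => av_integrable μ lam1 s h1 n _ (oY_nonneg _) (oY_le _)), e2]
  have h7 : ∫ y, LZ lam1 s h1 n y ∂(nu μ) ≤ ∫ y, LZ lam0 s h0 n y ∂(nu μ) +
      (lam1 - lam0) * ∑ j ∈ range n, a j - c * ∑ j ∈ range (n - 2), b j := by
    rw [← h6]
    exact h5
  have h8 := mul_le_mul_of_nonneg_left hsum hd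
  have h9 : (lam1 - lam0) * (∑ j ∈ range (n - 2), C3 * b j + 2 * A) =
      ((lam1 - lam0) * C3) * ∑ j ∈ range (n - 2), b j + 2 * (lam1 - lam0) * A := by
    rw [← Finset.mul_sum]
    ring
  have h10 : ((lam1 - lam0) * C3) * ∑ j ∈ range (n - 2), b j ≤ c * ∑ j ∈ range (n - 2), b j :=
    mul_le_mul_of_nonneg_right hc (Finset.sum_nonneg fun j _ => hbn j)
  linarith

end Pool.Agent.X88.PC
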