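import Pool.Agent.X88.PC.Gibbs

set_option autoImplicit false

/-!
Dependence of the path sums on one reward, one-dimensional integral inequalities, resampling of
one coordinate of an i.i.d. sequence.
-/

open Finset MeasureTheory

namespace Pool.Agent.X88.PC

theorem ham_update (u : ℕ → ℝ) (h : ℝ) (n : ℕ) (j : ℕ) (hj : j < n) (v : ℝ) (w : ℕ → ℤ) :
    ham (Function.update u j v) h n w = ham u h n w + (v - u j) * oP (j + 1) w := by
  have h1 : ham (Function.update u j v) h n w - ham u h n w = (v - u j) * oP (j + 1) w := by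
    unfold ham
    rw [← Finset.sum_sub_distrib]
    rw [Finset.sum_eq_single_of_mem j (Finset.mem_range.2 hj)]
    · unfold oP
      rw [Function.update_self]
      split_ifs <;> ring
    · intro b _ hb
      rw [Function.update_of_ne hb]
      ring
  linarith

/-- observables that live on visits to zero at time `j+1` -/
theorem PS_update_on (u : ℕ → ℝ) (h : ℝ) (n : ℕ) (j : ℕ) (hj : j < n) (v : ℝ)
    (F : (ℕ → ℤ) → ℝ) (hF : ∀ w, w (j + 1) ≠ 0 → F w = 0) :
    PS (Function.update u j v) h n 0 F = Real.exp (v - u j) * PS u h n 0 F := by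
  unfold PS
  rw [Finset.mul_sum]
  refine Finset.sum_congr rfl fun e _ => ?_
  by_cases hw : walk 0 e (j + 1) = 0
  · rw [ham_update u h n j hj v]
    have : oP (j + 1) (walk 0 e) = 1 := by unfold oP; rw [if_pos hw]
    rw [this, mul_one, Real.exp_add]
    ring
  · rw [hF _ hw]
    ring

/-- observables that live off visits to zero at time `j+1` -/
theorem PS_update_off (u : ℕ → ℝ) (h : ℝ) (n : ℕ) (j : ℕ) (hj : j < n) (v : ℝ)
    (F : (ℕ → ℤ) → ℝ) (hF : ∀ w, w (j + 1) = 0 → F w = 0) :
    PS (Function.update u j v) h n 0 F = PS u h n 0 F := by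
  unfold PS
  refine Finset.sum_congr rfl fun e _ => ?_
  by_cases hw : walk 0 e (j + 1) = 0
  · rw [hF _ hw]
    ring
  · rw [ham_update u h n j hj v]
    have : oP (j + 1) (walk 0 e) = 0 := by unfold oP; rw [if_neg hw]
    rw [this, mul_zero, add_zero]

/-- indicator of: not at zero at time `j` -/
noncomputable def oN (j : ℕ) (w : ℕ → ℤ) : ℝ := if w j = 0 then 0 else 1

theorem V_split (u : ℕ → ℝ) (h : ℝ) (n : ℕ) (j : ℕ) :
    V u h n 0 = PS u h n 0 (oP j) + PS u h n 0 (oN j) := by
  unfold V
  rw [← PS_add]
  congr 1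
  funext w
  unfold oP oN
  split_ifs <;> norm_num

theorem V_update (u : ℕ → ℝ) (h : ℝ) (n : ℕ) (j : ℕ) (hj : j < n) (v : ℝ) :
    V (Function.update u j v) h n 0 =
      Real.exp (v - u j) * PS u h n 0 (oP (j + 1)) + PS u h n 0 (oN (j + 1)) := by
  rw [V_split _ h n (j + 1)]
  rw [PS_update_on u h n j hj v _ (by intro w hw; unfold oP; rw [if_neg hw]),
    PS_update_off u h n j hj v _ (by intro w hw; unfold oN; rw [if_pos hw])]

/-- the constant of the integral inequalities -/
theorem int_one (μ : Measure ℝ) [IsProbabilityMeasure μ] (s lam A : ℝ) (hs : 0 ≤ s)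
    (hlam : 0 ≤ lam) (hint : Integrable (fun x => (1 + s * |x|) * (1 + Real.exp (lam * s * |x|))) μ)
    (hA : ∫ x, (1 + s * |x|) * (1 + Real.exp (lam * s * |x|)) ∂μ ≤ A)
    (q : ℝ) (hq : 0 < q) (hq2 : q ≤ μ.real (Set.Ici 0)) (a b : ℝ) (ha : 0 ≤ a) (hb : 0 ≤ b)
    (hab : 0 < a + b) :
    ∫ x, (1 + s * x) * (a * Real.exp (lam * (1 + s * x)) /
      (a * Real.exp (lam * (1 + s * x)) + b)) ∂μ ≤
    A / q * ∫ x, a * Real.exp (lam * (1 + s * x)) / (a * Real.exp (lam * (1 + s * x)) + b) ∂μ := by
  set t0 := Real.exp lam with ht0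
  set g : ℝ → ℝ := fun x => a * Real.exp (lam * (1 + s * x)) /
      (a * Real.exp (lam * (1 + s * x)) + b) with hg
  set g0 := a * t0 / (a * t0 + b) with hg0
  have ht0p : 0 < t0 := Real.exp_pos _
  have hden : ∀ t : ℝ, 0 < t → 0 < a * t + b := by
    intro t ht
    rcases eq_or_lt_of_le ha with h1 | h1
    · rw [← h1] at hab ⊢; simpa using hab
    · positivity
  have hgm : Measurable g := by
    rw [hg]
    fun_prop
  have hg_nonneg : ∀ x, 0 ≤ g x := by
    intro x
    have := hden _ (Real.exp_pos (lam * (1 + s * x)))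
    positivity
  have hg_le : ∀ x, g x ≤ 1 := by
    intro x
    have := hden _ (Real.exp_pos (lam * (1 + s * x)))
    rw [hg]
    simp only
    rw [div_le_one this]
    linarith
  have hgi : Integrable g μ := Integrable.mono' (integrable_const (1 : ℝ))
    hgm.aestronglyMeasurable (Filter.Eventually.of_forall fun x => by
      rw [Real.norm_eq_abs, abs_of_nonneg (hg_nonneg x)]; exact hg_le x)
  have hg0n : 0 ≤ g0 := by
    have := hden _ ht0p
    positivity
  -- lower bound
  have hlow : q * g0 ≤ ∫ x, g x ∂μ := by
    have h1 : ∀ x, (Set.Ici (0 : ℝ)).indicator (fun _ => g0) x ≤ g x := by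
      intro x
      by_cases hx : x ∈ Set.Ici (0 : ℝ)
      · rw [Set.indicator_of_mem hx]
        have hx' : 0 ≤ x := hx
        have h2 : t0 ≤ Real.exp (lam * (1 + s * x)) := by
          apply Real.exp_le_exp.2
          have : 0 ≤ lam * (s * x) := by positivity
          linarith
        rw [hg0, hg]
        simp only
        rw [div_le_div_iff₀ (hden _ ht0p) (hden _ (Real.exp_pos _))]
        have := mul_le_mul_of_nonneg_left h2 (mul_nonneg ha hb)
        nlinarith
      · rw [Set.indicator_of_notMem hx]
        exact hg_nonneg x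
    have h3 := integral_mono ((integrable_const g0).indicator measurableSet_Ici) hgi h1
    rw [integral_indicator measurableSet_Ici, setIntegral_const, smul_eq_mul] at h3
    exact (mul_le_mul_of_nonneg_right hq2 hg0n).trans h3
  -- upper bound
  have hup : ∫ x, (1 + s * x) * g x ∂μ ≤ g0 * A := by
    have h1 : ∀ x, g x ≤ g0 * (1 + Real.exp (lam * s * |x|)) := by
      intro x
      rcases le_total x 0 with hx | hx
      · have h2 : Real.exp (lam * (1 + s * x)) ≤ t0 := by
          apply Real.exp_le_exp.2
          have : lam * (s * x) ≤ 0 := by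
            apply mul_nonpos_of_nonneg_of_nonpos hlam
            exact mul_nonpos_of_nonneg_of_nonpos hs hx
          linarith
        have h3 : g x ≤ g0 := by
          rw [hg0, hg]
          simp only
          rw [div_le_div_iff₀ (hden _ (Real.exp_pos _)) (hden _ ht0p)]
          have := mul_le_mul_of_nonneg_left h2 (mul_nonneg ha hb)
          nlinarith
        have h4 : 0 ≤ g0 * Real.exp (lam * s * |x|) := by positivity
        linarith
      · have h2 : t0 ≤ Real.exp (lam * (1 + s * x)) := by
          apply Real.exp_le_exp.2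
          have : 0 ≤ lam * (s * x) := by positivity
          linarith
        have h3 : g x ≤ g0 * Real.exp (lam * s * |x|) := by
          rw [abs_of_nonneg hx]
          have h5 : Real.exp (lam * (1 + s * x)) = t0 * Real.exp (lam * s * x) := by
            rw [ht0, ← Real.exp_add]; ring_nf
          rw [hg0, hg]
          simp only
          rw [h5, div_mul_eq_mul_div]
          rw [h5] at h2
          rw [div_le_div_iff₀ (hden _ (by positivity)) (hden _ ht0p)]
          have h6 : 0 ≤ a * t0 * Real.exp (lam * s * x) := by positivity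
          have h7 := mul_le_mul_of_nonneg_left h2 (mul_nonneg h6 ha)
          nlinarith
        linarith
    have h2 : ∀ x, (1 + s * x) * g x ≤ g0 * ((1 + s * |x|) * (1 + Real.exp (lam * s * |x|))) := by
      intro x
      have h3 : s * x ≤ s * |x| := mul_le_mul_of_nonneg_left (le_abs_self x) hs
      calc (1 + s * x) * g x ≤ (1 + s * |x|) * g x :=
            mul_le_mul_of_nonneg_right (by linarith) (hg_nonneg x)
        _ ≤ (1 + s * |x|) * (g0 * (1 + Real.exp (lam * s * |x|))) :=
            mul_le_mul_of_nonneg_left (h1 x) (by positivity)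
        _ = _ := by ring
    have hi : Integrable (fun x => (1 + s * x) * g x) μ := by
      refine Integrable.mono' hint (by fun_prop) (Filter.Eventually.of_forall fun x => ?_)
      rw [Real.norm_eq_abs, abs_mul, abs_of_nonneg (hg_nonneg x)]
      have h3 : |1 + s * x| ≤ 1 + s * |x| := by
        refine (abs_add_le _ _).trans ?_
        rw [abs_mul, abs_of_nonneg hs]
        simp
      have h4 : 1 ≤ 1 + Real.exp (lam * s * |x|) := by
        have := Real.exp_pos (lam * s * |x|)
        linarith
      calc |1 + s * x| * g x ≤ (1 + s * |x|) * 1 :=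
            mul_le_mul h3 (hg_le x) (hg_nonneg x) (by positivity)
        _ ≤ _ := mul_le_mul_of_nonneg_left h4 (by positivity)
    have h3 := integral_mono hi (hint.const_mul g0) h2
    rw [integral_const_mul] at h3
    exact h3.trans (mul_le_mul_of_nonneg_left hA hg0n)
  have hA0 : 0 ≤ A := le_trans (integral_nonneg fun x => by positivity) hA
  calc _ ≤ g0 * A := hup
    _ = A / q * (q * g0) := by field_simp
    _ ≤ _ := mul_le_mul_of_nonneg_left hlow (by positivity)

theorem int_two (μ : Measure ℝ) [IsProbabilityMeasure μ] (s lam A : ℝ) (hs : 0 ≤ s)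
    (hlam : 0 ≤ lam) (hint : Integrable (fun x => (1 + s * |x|) * (1 + Real.exp (lam * s * |x|))) μ)
    (hA : ∫ x, (1 + s * |x|) * (1 + Real.exp (lam * s * |x|)) ∂μ ≤ A)
    (q : ℝ) (hq : 0 < q) (hq2 : q ≤ μ.real (Set.Ici 0)) (a b : ℝ) (ha : 0 ≤ a) (hb : 0 ≤ b)
    (hab : 0 < a + b) :
    ∫ x, 1 / (a * Real.exp (lam * (1 + s * x)) + b) ∂μ ≤
    A / q * ∫ x, Real.exp (lam * (1 + s * x)) / (a * Real.exp (lam * (1 + s * x)) + b) ∂μ := by
  set t0 := Real.exp lam with ht0
  set t : ℝ → ℝ := fun x => Real.exp (lam * (1 + s * x)) with ht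
  set G0 := 1 / (a * t0 + b) with hG0
  have ht0p : 0 < t0 := Real.exp_pos _
  have ht01 : 1 ≤ t0 := Real.one_le_exp hlam
  have htp : ∀ x, 0 < t x := fun x => Real.exp_pos _
  have htm : Measurable t := by rw [ht]; fun_prop
  have hden : ∀ t : ℝ, 0 < t → 0 < a * t + b := by
    intro t ht
    rcases eq_or_lt_of_le ha with h1 | h1
    · rw [← h1] at hab ⊢; simpa using hab
    · positivity
  have hG0p : 0 < G0 := by
    have := hden _ ht0p
    positivity
  have hbig : ∀ x, 0 ≤ x → t0 ≤ t x := by
    intro x hx
    apply Real.exp_le_exp.2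
    have : 0 ≤ lam * (s * x) := by positivity
    linarith
  have hsmall : ∀ x, x ≤ 0 → t x ≤ t0 := by
    intro x hx
    apply Real.exp_le_exp.2
    have : lam * (s * x) ≤ 0 := by
      apply mul_nonpos_of_nonneg_of_nonpos hlam
      exact mul_nonpos_of_nonneg_of_nonpos hs hx
    linarith
  have hexp : ∀ x, t x = t0 * Real.exp (lam * s * x) := by
    intro x
    rw [ht, ht0]
    simp only
    rw [← Real.exp_add]; ring_nf
  -- monotonicity
  have hmono : ∀ r r' : ℝ, 0 < r → r ≤ r' → r / (a * r + b) ≤ r' / (a * r' + b) := by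
    intro r r' hr hrr
    rw [div_le_div_iff₀ (hden _ hr) (hden _ (hr.trans_le hrr))]
    have := mul_le_mul_of_nonneg_right hrr hb
    nlinarith
  have hanti : ∀ r r' : ℝ, 0 < r → r ≤ r' → 1 / (a * r' + b) ≤ 1 / (a * r + b) := by
    intro r r' hr hrr
    apply one_div_le_one_div_of_le (hden _ hr)
    have := mul_le_mul_of_nonneg_left hrr ha
    linarith
  have hG : ∀ x, 1 / (a * t x + b) ≤ G0 * (1 + Real.exp (lam * s * |x|)) := by
    intro x
    rcases le_total x 0 with hx | hx
    · have h1 : 1 / (a * t x + b) ≤ G0 * Real.exp (lam * s * |x|) := by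
        rw [abs_of_nonpos hx]
        rw [hG0, one_div_mul_eq_div, div_le_div_iff₀ (hden _ (htp x)) (hden _ ht0p)]
        have h2 : Real.exp (lam * s * -x) * t x = t0 := by
          rw [hexp x, mul_comm, mul_assoc, ← Real.exp_add]
          simp
        have h3 : 1 ≤ Real.exp (lam * s * -x) := by
          apply Real.one_le_exp
          have : 0 ≤ -x := by linarith
          positivity
        have h4 := mul_le_mul_of_nonneg_right h3 hb
        calc 1 * (a * t0 + b) = a * (Real.exp (lam * s * -x) * t x) + 1 * b := by rw [h2]; ring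
          _ ≤ a * (Real.exp (lam * s * -x) * t x) + Real.exp (lam * s * -x) * b := by linarith
          _ = _ := by ring
      linarith
    · have h1 := hanti _ _ ht0p (hbig x hx)
      have h2 : 0 ≤ G0 * Real.exp (lam * s * |x|) := by positivity
      linarith
  have htG : ∀ x, t x / (a * t x + b) ≤ (G0 * t0) * (1 + Real.exp (lam * s * |x|)) := by
    intro x
    rcases le_total x 0 with hx | hx
    · have h1 := hmono _ _ (htp x) (hsmall x hx)
      have h2 : 0 ≤ (G0 * t0) * Real.exp (lam * s * |x|) := by positivity
      have h3 : t0 / (a * t0 + b) = G0 * t0 := by rw [hG0]; ring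
      linarith
    · have h1 := hanti _ _ ht0p (hbig x hx)
      have h2 := mul_le_mul_of_nonneg_right h1 (htp x).le
      have h3 : 1 / (a * t x + b) * t x = t x / (a * t x + b) := by ring
      rw [h3] at h2
      have h4 : 1 / (a * t0 + b) * t x = (G0 * t0) * Real.exp (lam * s * |x|) := by
        rw [abs_of_nonneg hx, hexp x, hG0]; ring
      rw [h4] at h2
      have h5 : 0 < G0 * t0 := by positivity
      linarith
  have hle : ∀ x : ℝ, 1 + Real.exp (lam * s * |x|) ≤
      (1 + s * |x|) * (1 + Real.exp (lam * s * |x|)) := by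
    intro x
    have h1 : 0 ≤ s * |x| * (1 + Real.exp (lam * s * |x|)) := by positivity
    linarith
  have hGi : Integrable (fun x => 1 / (a * t x + b)) μ := by
    refine Integrable.mono' (hint.const_mul G0)
      (measurable_const.div ((measurable_const.mul htm).add_const b)).aestronglyMeasurable
      (Filter.Eventually.of_forall fun x => ?_)
    rw [Real.norm_eq_abs, abs_of_pos (by have := hden _ (htp x); positivity)]
    exact (hG x).trans (mul_le_mul_of_nonneg_left (hle x) hG0p.le)
  have htGi : Integrable (fun x => t x / (a * t x + b)) μ := by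
    refine Integrable.mono' (hint.const_mul (G0 * t0))
      (htm.div ((measurable_const.mul htm).add_const b)).aestronglyMeasurable
      (Filter.Eventually.of_forall fun x => ?_)
    rw [Real.norm_eq_abs, abs_of_pos (by have := hden _ (htp x); have := htp x; positivity)]
    exact (htG x).trans (mul_le_mul_of_nonneg_left (hle x) (by positivity))
  have hlow : q * G0 ≤ ∫ x, t x / (a * t x + b) ∂μ := by
    have h1 : ∀ x, (Set.Ici (0 : ℝ)).indicator (fun _ => G0) x ≤ t x / (a * t x + b) := by
      intro x
      by_cases hx : x ∈ Set.Ici (0 : ℝ)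
      · rw [Set.indicator_of_mem hx]
        have h2 := hmono _ _ ht0p (hbig x hx)
        have h3 : G0 ≤ t0 / (a * t0 + b) := by
          rw [hG0]
          exact div_le_div_of_nonneg_right ht01 (hden _ ht0p).le
        linarith
      · rw [Set.indicator_of_notMem hx]
        have := hden _ (htp x)
        have := htp x
        positivity
    have h3 := integral_mono ((integrable_const G0).indicator measurableSet_Ici) htGi h1
    rw [integral_indicator measurableSet_Ici, setIntegral_const, smul_eq_mul] at h3
    exact (mul_le_mul_of_nonneg_right hq2 hG0p.le).trans h3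
  have hup : ∫ x, 1 / (a * t x + b) ∂μ ≤ G0 * A := by
    have h3 := integral_mono hGi (hint.const_mul G0)
      (fun x => (hG x).trans (mul_le_mul_of_nonneg_left (hle x) hG0p.le))
    rw [integral_const_mul] at h3
    exact h3.trans (mul_le_mul_of_nonneg_left hA hG0p.le)
  have hA0 : 0 ≤ A := le_trans (integral_nonneg fun x => by positivity) hA
  calc _ ≤ G0 * A := hup
    _ = A / q * (q * G0) := by field_simp
    _ ≤ _ := mul_le_mul_of_nonneg_left hlow (by positivity)

/-- resampling of one coordinate -/
theorem resample (μ : Measure ℝ) [IsProbabilityMeasure μ] (j : ℕ) :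
    (μ.prod (Measure.infinitePi fun _ : ℕ => μ)).map
      (fun p : ℝ × (ℕ → ℝ) => Function.update p.2 j p.1) = Measure.infinitePi fun _ : ℕ => μ := by
  have hm : Measurable fun p : ℝ × (ℕ → ℝ) => Function.update p.2 j p.1 := by
    rw [measurable_pi_iff]
    intro i
    by_cases hi : i = j
    · subst hi
      simp only [Function.update_self]
      exact measurable_fst
    · simp only [Function.update_of_ne hi]
      exact (measurable_pi_apply i).comp measurable_snd
  apply Measure.eq_infinitePi
  intro t A hA
  rw [Measure.map_apply hm (MeasurableSet.pi t.countable_toSet fun i _ => hA i)]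
  have h1 : (fun p : ℝ × (ℕ → ℝ) => Function.update p.2 j p.1) ⁻¹' (Set.pi t A) =
      (if j ∈ t then A j else Set.univ) ×ˢ (Set.pi ((t.erase j : Finset ℕ) : Set ℕ) A) := by
    ext ⟨x, y⟩
    simp only [Set.mem_preimage, Set.mem_pi, Set.mem_prod, Finset.mem_coe, Finset.mem_erase]
    constructor
    · intro h
      refine ⟨?_, fun i hi => ?_⟩
      · split_ifs with hj
        · have := h j hj
          rwa [Function.update_self] at this
        · trivial
      · have := h i hi.2
        rwa [Function.update_of_ne hi.1] at this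
    · rintro ⟨h1, h2⟩ i hi
      by_cases hij : i = j
      · subst hij
        rw [if_pos hi] at h1
        rwa [Function.update_self]
      · rw [Function.update_of_ne hij]
        exact h2 i ⟨hij, hi⟩
  rw [h1, Measure.prod_prod, Measure.infinitePi_pi _ (fun i _ => hA i)]
  by_cases hj : j ∈ t
  · rw [if_pos hj, Finset.mul_prod_erase t (fun i => μ (A i)) hj]
  · rw [if_neg hj, measure_univ, one_mul, Finset.erase_eq_of_notMem hj]

end Pool.Agent.X88.PC
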