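import Pool.Agent.X88.PC.Path

set_option autoImplicit false

/-!
Local comparisons under the path sums and the convexity inequality.
-/

open Finset

namespace Pool.Agent.X88.PC

theorem PS_congr0 (u : ℕ → ℝ) (h : ℝ) (n : ℕ) (x : ℤ) (F G : (ℕ → ℤ) → ℝ)
    (hFG : ∀ w, w 0 = x → F w = G w) : PS u h n x F = PS u h n x G := by
  unfold PS
  refine Finset.sum_congr rfl fun e _ => ?_
  rw [hFG _ (walk_zero x e)]

theorem PS_const_mul (u : ℕ → ℝ) (h : ℝ) (n : ℕ) (x : ℤ) (c : ℝ) (F : (ℕ → ℤ) → ℝ) :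
    PS u h n x (fun w => c * F w) = c * PS u h n x F := by
  unfold PS
  rw [Finset.mul_sum]
  refine Finset.sum_congr rfl fun e _ => by ring

theorem PS_add (u : ℕ → ℝ) (h : ℝ) (n : ℕ) (x : ℤ) (F G : (ℕ → ℤ) → ℝ) :
    PS u h n x (fun w => F w + G w) = PS u h n x F + PS u h n x G := by
  unfold PS
  rw [← Finset.sum_add_distrib]
  refine Finset.sum_congr rfl fun e _ => by ring

theorem PS_sum {ι : Type*} (s : Finset ι) (u : ℕ → ℝ) (h : ℝ) (n : ℕ) (x : ℤ)
    (F : ι → (ℕ → ℤ) → ℝ) :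
    PS u h n x (fun w => ∑ i ∈ s, F i w) = ∑ i ∈ s, PS u h n x (F i) := by
  unfold PS
  rw [Finset.sum_comm]
  refine Finset.sum_congr rfl fun e _ => ?_
  rw [Finset.mul_sum]

theorem PS_const (u : ℕ → ℝ) (h : ℝ) (n : ℕ) (x : ℤ) (c : ℝ) :
    PS u h n x (fun _ => c) = c * V u h n x := by
  unfold V
  rw [← PS_const_mul]
  simp

/-- indicator of: at zero at time `j`, not at time `j+2` -/
noncomputable def oX (j : ℕ) (w : ℕ → ℤ) : ℝ := if w j = 0 ∧ w (j + 2) ≠ 0 then 1 else 0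

/-- indicator of: at zero at times `j` and `j+2` -/
noncomputable def oY (j : ℕ) (w : ℕ → ℤ) : ℝ := if w j = 0 ∧ w (j + 2) = 0 then 1 else 0

/-- indicator of a lower excursion of length two started at time `j` -/
noncomputable def oL (j : ℕ) (w : ℕ → ℤ) : ℝ :=
  if w j = 0 ∧ w (j + 1) = -1 ∧ w (j + 2) = 0 then 1 else 0

/-- indicator of: at zero at time `j` -/
noncomputable def oP (j : ℕ) (w : ℕ → ℤ) : ℝ := if w j = 0 then 1 else 0

theorem PS_two (u : ℕ → ℝ) (h : ℝ) (m : ℕ) (F : (ℕ → ℤ) → ℝ) :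
    PS u h (m + 2) 0 F =
      Real.exp h * (Real.exp h * PS (fun i => u (i + 2)) h m 2 (fun w => F (ncons 0 (ncons 1 w))) +
        Real.exp (u 1 + h) * PS (fun i => u (i + 2)) h m 0 (fun w => F (ncons 0 (ncons 1 w)))) +
      Real.exp (-h) * (Real.exp (u 1 - h) *
          PS (fun i => u (i + 2)) h m 0 (fun w => F (ncons 0 (ncons (-1) w))) +
        Real.exp (-h) *
          PS (fun i => u (i + 2)) h m (-2) (fun w => F (ncons 0 (ncons (-1) w)))) := by
  rw [PS_succ]
  simp only [Fintype.sum_bool]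
  rw [PS_succ, PS_succ]
  simp only [Fintype.sum_bool]
  have e1 : (0 : ℤ) + stp true = 1 := by simp [stp]
  have e2 : (0 : ℤ) + stp false = -1 := by simp [stp]
  rw [e1, e2]
  have e3 : (1 : ℤ) + stp true = 2 := by simp [stp]
  have e4 : (1 : ℤ) + stp false = 0 := by simp [stp]
  have e5 : (-1 : ℤ) + stp true = 0 := by simp [stp]
  have e6 : (-1 : ℤ) + stp false = -2 := by simp [stp]
  rw [e3, e4, e5, e6, fw_up _ _ _ le_rfl, fw_up _ _ _ (by norm_num), fw_down_one, fw_down_zero,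
    fw_up_neg_one]
  have e7 : fw (u (0 + 1)) h (-1) false = Real.exp (-h) := by
    unfold fw
    have h3 : Int.sign 3 = 1 := rfl
    simp [stp, h3]
  rw [e7]

theorem base_X (u : ℕ → ℝ) (h : ℝ) (m : ℕ) : PS u h (m + 2) 0 (oX 0) =
    Real.exp h * (Real.exp h * V (fun i => u (i + 2)) h m 2) +
      Real.exp (-h) * (Real.exp (-h) * V (fun i => u (i + 2)) h m (-2)) := by
  rw [PS_two]
  have h1 : ∀ y : ℤ, PS (fun i => u (i + 2)) h m 2 (fun w => oX 0 (ncons 0 (ncons y w))) =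
      V (fun i => u (i + 2)) h m 2 := by
    intro y
    unfold V
    apply PS_congr0
    intro w hw
    simp [oX, ncons, hw]
  have h2 : ∀ y : ℤ, PS (fun i => u (i + 2)) h m (-2) (fun w => oX 0 (ncons 0 (ncons y w))) =
      V (fun i => u (i + 2)) h m (-2) := by
    intro y
    unfold V
    apply PS_congr0
    intro w hw
    simp [oX, ncons, hw]
  have h3 : ∀ y : ℤ, PS (fun i => u (i + 2)) h m 0 (fun w => oX 0 (ncons 0 (ncons y w))) = 0 := by
    intro y
    rw [PS_congr0 _ _ _ _ _ (fun _ => 0) (by intro w hw; simp [oX, ncons, hw]), PS_const, zero_mul]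
  rw [h1, h2, h3, h3]
  ring

theorem base_Y (u : ℕ → ℝ) (h : ℝ) (m : ℕ) : PS u h (m + 2) 0 (oY 0) =
    Real.exp h * (Real.exp (u 1 + h) * V (fun i => u (i + 2)) h m 0) +
      Real.exp (-h) * (Real.exp (u 1 - h) * V (fun i => u (i + 2)) h m 0) := by
  rw [PS_two]
  have h1 : ∀ y : ℤ, PS (fun i => u (i + 2)) h m 0 (fun w => oY 0 (ncons 0 (ncons y w))) =
      V (fun i => u (i + 2)) h m 0 := by
    intro y
    unfold V
    apply PS_congr0
    intro w hw
    simp [oY, ncons, hw]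
  have h3 : ∀ y : ℤ, PS (fun i => u (i + 2)) h m 2 (fun w => oY 0 (ncons 0 (ncons y w))) = 0 := by
    intro y
    rw [PS_congr0 _ _ _ _ _ (fun _ => 0) (by intro w hw; simp [oY, ncons, hw]), PS_const, zero_mul]
  have h4 : ∀ y : ℤ,
      PS (fun i => u (i + 2)) h m (-2) (fun w => oY 0 (ncons 0 (ncons y w))) = 0 := by
    intro y
    rw [PS_congr0 _ _ _ _ _ (fun _ => 0) (by intro w hw; simp [oY, ncons, hw]), PS_const, zero_mul]
  rw [h1, h1, h3, h4]
  ring

theorem base_L (u : ℕ → ℝ) (h : ℝ) (m : ℕ) : PS u h (m + 2) 0 (oL 0) =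
      Real.exp (-h) * (Real.exp (u 1 - h) * V (fun i => u (i + 2)) h m 0) := by
  rw [PS_two]
  have h1 : PS (fun i => u (i + 2)) h m 0 (fun w => oL 0 (ncons 0 (ncons (-1) w))) =
      V (fun i => u (i + 2)) h m 0 := by
    unfold V
    apply PS_congr0
    intro w hw
    simp [oL, ncons, hw]
  have h3 : ∀ x : ℤ, PS (fun i => u (i + 2)) h m x (fun w => oL 0 (ncons 0 (ncons 1 w))) = 0 := by
    intro x
    rw [PS_congr0 _ _ _ _ _ (fun _ => 0) (by intro w hw; simp [oL, ncons]), PS_const, zero_mul]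
  have h4 : PS (fun i => u (i + 2)) h m (-2) (fun w => oL 0 (ncons 0 (ncons (-1) w))) = 0 := by
    rw [PS_congr0 _ _ _ _ _ (fun _ => 0) (by intro w hw; simp [oL, ncons, hw]), PS_const, zero_mul]
  rw [h1, h3, h3, h4]
  ring

theorem X_le_Y (h : ℝ) (j : ℕ) : ∀ (u : ℕ → ℝ) (n : ℕ) (x : ℤ), j + 2 ≤ n →
    PS u h n x (oX j) ≤ 4 * Real.exp (-u (j + 1)) * PS u h n x (oY j) := by
  induction j with
  | zero =>
    intro u n x hn
    obtain ⟨m, rfl⟩ : ∃ m, n = m + 2 := ⟨n - 2, by omega⟩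
    by_cases hx : x = 0
    · subst hx
      rw [base_X, base_Y]
      have h1 := V_two (fun i => u (i + 2)) h m
      have h2 := V_neg_two (fun i => u (i + 2)) h m
      have e1 : Real.exp (u 1 + h) = Real.exp (u 1) * Real.exp h := Real.exp_add _ _
      have e2 : Real.exp (u 1 - h) = Real.exp (u 1) * Real.exp (-h) := by
        rw [← Real.exp_add]; ring_nf
      have e3 : Real.exp (-u (0 + 1)) * Real.exp (u 1) = 1 := by
        rw [← Real.exp_add]; simp
      rw [e1, e2]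
      have p1 := Real.exp_pos h
      have p2 := Real.exp_pos (-h)
      calc _ ≤ Real.exp h * (Real.exp h * (4 * V (fun i => u (i + 2)) h m 0)) +
            Real.exp (-h) * (Real.exp (-h) * (4 * V (fun i => u (i + 2)) h m 0)) := by
              gcongr
        _ = 4 * (Real.exp (-u (0 + 1)) * Real.exp (u 1)) * (Real.exp h * (Real.exp h *
            V (fun i => u (i + 2)) h m 0) +
            Real.exp (-h) * (Real.exp (-h) * V (fun i => u (i + 2)) h m 0)) := by
              rw [e3]; ring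
        _ = _ := by ring
    · have h1 : PS u h (m + 2) x (oX 0) = 0 := by
        rw [PS_congr0 _ _ _ _ _ (fun _ => 0) (by intro w hw; simp [oX, hw, hx]), PS_const,
          zero_mul]
      rw [h1]
      exact mul_nonneg (by positivity) (PS_nonneg _ _ _ _ _ fun w => by
        unfold oY; split_ifs <;> norm_num)
  | succ j ih =>
    intro u n x hn
    obtain ⟨m, rfl⟩ : ∃ m, n = m + 1 := ⟨n - 1, by omega⟩
    rw [PS_succ, PS_succ, Finset.mul_sum]
    refine Finset.sum_le_sum fun b _ => ?_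
    have h1 := ih (fun i => u (i + 1)) m (x + stp b) (by omega)
    have h2 := mul_le_mul_of_nonneg_left h1 (fw_pos (u 0) h x b).le
    refine h2.trans (le_of_eq ?_)
    have h3 : (fun w => oY (j + 1) (ncons x w)) = oY j := rfl
    rw [h3]
    ring

theorem Y_le_L (h : ℝ) (j : ℕ) : ∀ (u : ℕ → ℝ) (n : ℕ) (x : ℤ), j + 2 ≤ n →
    PS u h n x (oY j) ≤ (1 + Real.exp (4 * h)) * PS u h n x (oL j) := by
  induction j with
  | zero =>
    intro u n x hn
    obtain ⟨m, rfl⟩ : ∃ m, n = m + 2 := ⟨n - 2, by omega⟩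
    by_cases hx : x = 0
    · subst hx
      rw [base_Y, base_L]
      apply le_of_eq
      have e1 : Real.exp (4 * h) * (Real.exp (-h) * Real.exp (u 1 - h)) =
          Real.exp h * Real.exp (u 1 + h) := by
        rw [← Real.exp_add, ← Real.exp_add, ← Real.exp_add]; ring_nf
      calc _ = (Real.exp h * Real.exp (u 1 + h)) * V (fun i => u (i + 2)) h m 0 +
            Real.exp (-h) * (Real.exp (u 1 - h) * V (fun i => u (i + 2)) h m 0) := by ring
        _ = _ := by rw [← e1]; ring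
    · have h1 : PS u h (m + 2) x (oY 0) = 0 := by
        rw [PS_congr0 _ _ _ _ _ (fun _ => 0) (by intro w hw; simp [oY, hw, hx]), PS_const,
          zero_mul]
      rw [h1]
      exact mul_nonneg (by positivity) (PS_nonneg _ _ _ _ _ fun w => by
        unfold oL; split_ifs <;> norm_num)
  | succ j ih =>
    intro u n x hn
    obtain ⟨m, rfl⟩ : ∃ m, n = m + 1 := ⟨n - 1, by omega⟩
    rw [PS_succ, PS_succ, Finset.mul_sum]
    refine Finset.sum_le_sum fun b _ => ?_
    have h1 := ih (fun i => u (i + 1)) m (x + stp b) (by omega)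
    have h2 := mul_le_mul_of_nonneg_left h1 (fw_pos (u 0) h x b).le
    refine h2.trans (le_of_eq ?_)
    have h3 : (fun w => oL (j + 1) (ncons x w)) = oL j := rfl
    rw [h3]
    ring

/-- the convexity inequality -/
theorem jensen (u1 u0 : ℕ → ℝ) (h1 h0 : ℝ) (n : ℕ) (x : ℤ) :
    Real.log (V u1 h1 n x) ≤ Real.log (V u0 h0 n x) +
      PS u1 h1 n x (fun w => ham u1 h1 n w - ham u0 h0 n w) / V u1 h1 n x := by
  set m := PS u1 h1 n x (fun w => ham u1 h1 n w - ham u0 h0 n w) / V u1 h1 n x with hm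
  have hV1 := V_pos u1 h1 n x
  have hV0 := V_pos u0 h0 n x
  have key : Real.exp (-m) * V u1 h1 n x ≤ V u0 h0 n x := by
    have h2 : V u0 h0 n x = PS u1 h1 n x (fun w => Real.exp (-(ham u1 h1 n w - ham u0 h0 n w))) := by
      unfold V PS
      refine Finset.sum_congr rfl fun e _ => ?_
      rw [← Real.exp_add, mul_one]
      congr 1
      ring
    have h3 : PS u1 h1 n x (fun w => Real.exp (-m) * (1 + m + (-1) * (ham u1 h1 n w - ham u0 h0 n w)))
        = Real.exp (-m) * V u1 h1 n x := by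
      rw [PS_const_mul, PS_add, PS_const, PS_const_mul]
      have : PS u1 h1 n x (fun w => ham u1 h1 n w - ham u0 h0 n w) = m * V u1 h1 n x := by
        rw [hm]; field_simp
      rw [this]
      ring
    rw [h2, ← h3]
    apply PS_mono
    intro w
    have h4 := Real.add_one_le_exp (m - (ham u1 h1 n w - ham u0 h0 n w))
    have h5 : Real.exp (-(ham u1 h1 n w - ham u0 h0 n w)) = Real.exp (-m) *
        Real.exp (m - (ham u1 h1 n w - ham u0 h0 n w)) := by
      rw [← Real.exp_add]; ring_nf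
    rw [h5]
    apply mul_le_mul_of_nonneg_left _ (Real.exp_pos _).le
    linarith
  have h6 := Real.log_le_log (by positivity) key
  rw [Real.log_mul (Real.exp_pos _).ne' hV1.ne', Real.log_exp] at h6
  linarith

theorem ham_diff (u1 u0 : ℕ → ℝ) (h1 h0 : ℝ) (hh : h0 ≤ h1) (n : ℕ) (w : ℕ → ℤ) :
    ham u1 h1 n w - ham u0 h0 n w ≤ ∑ j ∈ range n, (u1 j - u0 j) * oP (j + 1) w +
      (h1 - h0) * n + (-(2 * (h1 - h0))) * ∑ j ∈ range (n - 2), oL (j + 1) w := by
  have hsg : ∀ i, ((Int.sign (w i + w (i + 1)) : ℤ) : ℝ) ≤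
      1 - 2 * (if w i + w (i + 1) < 0 then 1 else 0) := by
    intro i
    split_ifs with h
    · rw [Int.sign_eq_neg_one_of_neg h]; norm_num
    · have : Int.sign (w i + w (i + 1)) ≤ 1 := by
        rcases lt_trichotomy (w i + w (i + 1)) 0 with h2 | h2 | h2
        · exact absurd h2 h
        · rw [h2]; simp
        · rw [Int.sign_eq_one_of_pos h2]
      have h3 : ((Int.sign (w i + w (i + 1)) : ℤ) : ℝ) ≤ 1 := by exact_mod_cast this
      linarith
  have hL : ∑ j ∈ range (n - 2), oL (j + 1) w ≤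
      ∑ i ∈ range n, (if w i + w (i + 1) < 0 then (1 : ℝ) else 0) := by
    rcases Nat.lt_or_ge n 2 with hn2 | hn2
    · have h0 : n - 2 = 0 := by omega
      rw [h0, Finset.range_zero, Finset.sum_empty]
      exact Finset.sum_nonneg fun _ _ => by split_ifs <;> norm_num
    calc ∑ j ∈ range (n - 2), oL (j + 1) w
        ≤ ∑ j ∈ range (n - 2), (if w (j + 1) + w (j + 1 + 1) < 0 then (1 : ℝ) else 0) := by
          refine Finset.sum_le_sum fun j _ => ?_
          unfold oL
          by_cases hc : w (j + 1) = 0 ∧ w (j + 1 + 1) = -1 ∧ w (j + 1 + 2) = 0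
          · rw [if_pos hc, if_pos (by omega)]
          · rw [if_neg hc]
            split_ifs <;> norm_num
      _ ≤ ∑ i ∈ range (n - 2 + 1), (if w i + w (i + 1) < 0 then (1 : ℝ) else 0) := by
          rw [Finset.sum_range_succ']
          have : (0 : ℝ) ≤ if w 0 + w (0 + 1) < 0 then (1 : ℝ) else 0 := by
            split_ifs <;> norm_num
          linarith
      _ ≤ _ := by
          have : n - 2 + 1 ≤ n := by omega
          exact Finset.sum_le_sum_of_subset_of_nonneg (Finset.range_mono this)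
                (fun _ _ _ => by split_ifs <;> norm_num)
  have h2 : ham u1 h1 n w - ham u0 h0 n w = ∑ j ∈ range n, (u1 j - u0 j) * oP (j + 1) w +
      (h1 - h0) * ∑ i ∈ range n, ((Int.sign (w i + w (i + 1)) : ℤ) : ℝ) := by
    unfold ham
    rw [← Finset.sum_sub_distrib, Finset.mul_sum, ← Finset.sum_add_distrib]
    refine Finset.sum_congr rfl fun i _ => ?_
    unfold oP
    split_ifs <;> ring
  have h3 : ∑ i ∈ range n, ((Int.sign (w i + w (i + 1)) : ℤ) : ℝ) ≤
      n - 2 * ∑ i ∈ range n, (if w i + w (i + 1) < 0 then (1 : ℝ) else 0) := by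
    calc _ ≤ ∑ i ∈ range n, (1 - 2 * (if w i + w (i + 1) < 0 then (1 : ℝ) else 0)) :=
          Finset.sum_le_sum fun i _ => hsg i
      _ = _ := by
          rw [Finset.sum_sub_distrib, ← Finset.mul_sum]
          simp
  rw [h2]
  have h4 : 0 ≤ h1 - h0 := by linarith
  have h5 := mul_le_mul_of_nonneg_left h3 h4
  have h6 := mul_le_mul_of_nonneg_left hL h4
  linarith

/-- Gibbs average -/
noncomputable def av (u : ℕ → ℝ) (h : ℝ) (n : ℕ) (F : (ℕ → ℤ) → ℝ) : ℝ :=
  PS u h n 0 F / V u h n 0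

/-- the pathwise comparison -/
theorem compare (u1 u0 : ℕ → ℝ) (h1 h0 : ℝ) (hh : h0 ≤ h1) (n : ℕ) :
    Real.log (V u1 h1 n 0) - h1 * n ≤ Real.log (V u0 h0 n 0) - h0 * n +
      ∑ j ∈ range n, (u1 j - u0 j) * av u1 h1 n (oP (j + 1)) -
      (2 * (h1 - h0)) / (1 + Real.exp (4 * h1)) * ∑ j ∈ range (n - 2), av u1 h1 n (oY (j + 1)) := by
  have hV1 := V_pos u1 h1 n 0
  have h2 := jensen u1 u0 h1 h0 n 0
  have h3 := PS_mono u1 h1 n 0 _ _ (ham_diff u1 u0 h1 h0 hh n)
  have h4 : PS u1 h1 n 0 (fun w => ∑ j ∈ range n, (u1 j - u0 j) * oP (j + 1) w +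
      (h1 - h0) * n + (-(2 * (h1 - h0))) * ∑ j ∈ range (n - 2), oL (j + 1) w) =
      ∑ j ∈ range n, (u1 j - u0 j) * PS u1 h1 n 0 (oP (j + 1)) + (h1 - h0) * n * V u1 h1 n 0 +
      (-(2 * (h1 - h0))) * ∑ j ∈ range (n - 2), PS u1 h1 n 0 (oL (j + 1)) := by
    rw [PS_add, PS_add, PS_const, PS_const_mul, PS_sum, PS_sum]
    congr 2
    refine Finset.sum_congr rfl fun j _ => ?_
    rw [PS_const_mul]
  rw [h4] at h3
  have h5 : ∀ j ∈ range (n - 2), PS u1 h1 n 0 (oY (j + 1)) ≤
      (1 + Real.exp (4 * h1)) * PS u1 h1 n 0 (oL (j + 1)) := by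
    intro j hj
    rw [Finset.mem_range] at hj
    exact Y_le_L h1 (j + 1) u1 n 0 (by omega)
  have h6 := Finset.sum_le_sum h5
  rw [← Finset.mul_sum] at h6
  have hE : 0 < 1 + Real.exp (4 * h1) := by positivity
  have h7 : (2 * (h1 - h0)) / (1 + Real.exp (4 * h1)) * ∑ j ∈ range (n - 2), PS u1 h1 n 0 (oY (j + 1))
      ≤ (2 * (h1 - h0)) * ∑ j ∈ range (n - 2), PS u1 h1 n 0 (oL (j + 1)) := by
    rw [div_mul_eq_mul_div, div_le_iff₀ hE]
    have := mul_le_mul_of_nonneg_left h6 (show 0 ≤ 2 * (h1 - h0) by linarith)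
    linarith
  have h8 : PS u1 h1 n 0 (fun w => ham u1 h1 n w - ham u0 h0 n w) ≤
      (∑ j ∈ range n, (u1 j - u0 j) * av u1 h1 n (oP (j + 1)) + (h1 - h0) * n -
      (2 * (h1 - h0)) / (1 + Real.exp (4 * h1)) * ∑ j ∈ range (n - 2), av u1 h1 n (oY (j + 1))) *
        V u1 h1 n 0 := by
    have e1 : (∑ j ∈ range n, (u1 j - u0 j) * av u1 h1 n (oP (j + 1))) * V u1 h1 n 0 =
        ∑ j ∈ range n, (u1 j - u0 j) * PS u1 h1 n 0 (oP (j + 1)) := by
      rw [Finset.sum_mul]
      refine Finset.sum_congr rfl fun j _ => ?_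
      unfold av
      field_simp
    have e2 : (∑ j ∈ range (n - 2), av u1 h1 n (oY (j + 1))) * V u1 h1 n 0 =
        ∑ j ∈ range (n - 2), PS u1 h1 n 0 (oY (j + 1)) := by
      rw [Finset.sum_mul]
      refine Finset.sum_congr rfl fun j _ => ?_
      unfold av
      field_simp
    calc _ ≤ _ := h3
      _ ≤ ∑ j ∈ range n, (u1 j - u0 j) * PS u1 h1 n 0 (oP (j + 1)) + (h1 - h0) * n * V u1 h1 n 0 -
          (2 * (h1 - h0)) / (1 + Real.exp (4 * h1)) *
            ∑ j ∈ range (n - 2), PS u1 h1 n 0 (oY (j + 1)) := by linarith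
      _ = _ := by
          rw [← e1, ← e2]
          ring
  have h9 : PS u1 h1 n 0 (fun w => ham u1 h1 n w - ham u0 h0 n w) / V u1 h1 n 0 ≤ _ :=
    (div_le_iff₀ hV1).2 h8
  linarith

end Pool.Agent.X88.PC
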