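import Pool.Agent.X88.PC.Cmp

set_option autoImplicit false

/-!
Convergence in probability of the normalised logarithm and its mean.
-/

open Finset MeasureTheory Filter
open scoped Topology

namespace Pool.Agent.X88.PC

variable (μ : Measure ℝ) [IsProbabilityMeasure μ]

/-- the normalised logarithm is `o(n)` in probability -/
def Del (lam s h : ℝ) : Prop :=
  ∀ ε : ℝ, 0 < ε → Tendsto (fun n : ℕ => (nu μ).real {y | ε ≤ |LZ lam s h n y / n|}) atTop (𝓝 0)

theorem rew_sq_integrable (lam s : ℝ) (hx2 : Integrable (fun x : ℝ => (lam * (1 + s * x)) ^ 2) μ)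
    (i : ℕ) : Integrable (fun y : ℕ → ℝ => (rew lam s y i) ^ 2) (nu μ) ∧
      ∫ y, (rew lam s y i) ^ 2 ∂(nu μ) = ∫ x, (lam * (1 + s * x)) ^ 2 ∂μ :=
  integral_coord μ i _ hx2 (by fun_prop)

theorem set_meas (lam s h ε : ℝ) (n : ℕ) : MeasurableSet {y | ε ≤ |LZ lam s h n y / n|} :=
  measurableSet_le measurable_const ((LZ_measurable lam s h n).div_const _).abs

theorem del_mean (lam s h : ℝ) (hh : 0 ≤ h) (hx : Integrable (fun x : ℝ => |x|) μ)
    (hx2 : Integrable (fun x : ℝ => (lam * (1 + s * x)) ^ 2) μ) (hD : Del μ lam s h) (ε : ℝ)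
    (hε : 0 < ε) : ∀ᶠ n : ℕ in atTop, ∫ y, LZ lam s h n y ∂(nu μ) ≤ ε * n := by
  set M := ∫ x, (lam * (1 + s * x)) ^ 2 ∂μ with hM
  have hM0 : 0 ≤ M := integral_nonneg fun x => by positivity
  obtain ⟨K, hK0, hK⟩ : ∃ K : ℝ, 0 < K ∧ M / K ≤ ε / 3 := by
    refine ⟨3 * (M + 1) / ε, by positivity, ?_⟩
    rw [div_le_iff₀ (by positivity)]
    have : ε / 3 * (3 * (M + 1) / ε) = M + 1 := by field_simp
    linarith
  have h1 := (hD (ε / 3) (by positivity)).eventually (gt_mem_nhds (show 0 < ε / (3 * K) by positivity))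
  filter_upwards [h1, eventually_ge_atTop 1] with n hn hn1
  have hn0 : (0 : ℝ) < n := by exact_mod_cast hn1
  set S : Set (ℕ → ℝ) := {y | ε / 3 ≤ |LZ lam s h n y / n|} with hS
  have hSm : MeasurableSet S := set_meas lam s h (ε / 3) n
  have hpt : ∀ y, LZ lam s h n y / n ≤ ε / 3 + (1 / K) * ((1 / n) *
      ∑ i ∈ range n, (rew lam s y i) ^ 2) + S.indicator (fun _ => K) y := by
    intro y
    have hsq : 0 ≤ (1 / (n : ℝ)) * ∑ i ∈ range n, (rew lam s y i) ^ 2 :=
      mul_nonneg (by positivity) (Finset.sum_nonneg fun i _ => by positivity)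
    by_cases hy : y ∈ S
    · rw [Set.indicator_of_mem hy]
      set D := (∑ i ∈ range n, |rew lam s y i|) / n with hDdef
      have h2 : LZ lam s h n y / n ≤ D :=
        div_le_div_of_nonneg_right (LZ_le lam s h hh n y) hn0.le
      have hD0 : 0 ≤ D := div_nonneg (Finset.sum_nonneg fun i _ => abs_nonneg _) hn0.le
      have h3 : D ≤ D ^ 2 / K + K := by
        rcases le_total D K with h4 | h4
        · have : 0 ≤ D ^ 2 / K := by positivity
          linarith
        · have : D ≤ D ^ 2 / K := by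
            rw [le_div_iff₀ hK0, sq]
            exact mul_le_mul_of_nonneg_left h4 hD0
          linarith
      have h5 : D ^ 2 ≤ (1 / n) * ∑ i ∈ range n, (rew lam s y i) ^ 2 := by
        have h6 := sq_sum_le_card_mul_sum_sq (s := range n) (f := fun i => |rew lam s y i|)
        simp only [Finset.card_range, sq_abs] at h6
        rw [hDdef, div_pow, div_le_iff₀ (by positivity)]
        calc _ ≤ (n : ℝ) * ∑ i ∈ range n, (rew lam s y i) ^ 2 := h6
          _ = _ := by field_simp
      have h7 : D ^ 2 / K ≤ (1 / K) * ((1 / n) * ∑ i ∈ range n, (rew lam s y i) ^ 2) := by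
        rw [div_eq_mul_inv, mul_comm, ← one_div]
        exact mul_le_mul_of_nonneg_left h5 (by positivity)
      linarith
    · rw [Set.indicator_of_notMem hy]
      have h2 : |LZ lam s h n y / n| < ε / 3 := by
        rw [hS] at hy
        simpa using hy
      have h3 := (le_abs_self _).trans h2.le
      have h4 : 0 ≤ (1 / K) * ((1 / (n : ℝ)) * ∑ i ∈ range n, (rew lam s y i) ^ 2) := by
        positivity
      linarith
  have hI1 : Integrable (fun y => LZ lam s h n y / n) (nu μ) :=
    (LZ_integrable μ lam s h hx n).div_const _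
  have hI2 : Integrable (fun y : ℕ → ℝ => (1 / K) * ((1 / (n : ℝ)) *
      ∑ i ∈ range n, (rew lam s y i) ^ 2)) (nu μ) :=
    ((integrable_finsetSum _ fun i _ => (rew_sq_integrable μ lam s hx2 i).1).const_mul _).const_mul _
  have hI3 : Integrable (S.indicator (fun _ : ℕ → ℝ => K)) (nu μ) :=
    (integrable_const K).indicator hSm
  have h8 := integral_mono hI1 (((integrable_const (ε / 3)).add hI2).add hI3) hpt
  have h9 : ∫ y, ((((fun _ : ℕ → ℝ => ε / 3) + fun y : ℕ → ℝ => (1 / K) * ((1 / (n : ℝ)) *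
      ∑ i ∈ range n, (rew lam s y i) ^ 2)) + S.indicator (fun _ => K)) y) ∂(nu μ) =
      ε / 3 + (1 / K) * ((1 / n) * (n * M)) + (nu μ).real S * K := by
    rw [integral_add' ((integrable_const (ε / 3)).add hI2) hI3,
      integral_add' (integrable_const (ε / 3)) hI2, integral_indicator hSm, setIntegral_const,
      integral_const_mul, integral_const_mul,
      integral_finsetSum _ (fun i _ => (rew_sq_integrable μ lam s hx2 i).1)]
    have h10 : ∑ i ∈ range n, ∫ y, (rew lam s y i) ^ 2 ∂(nu μ) = n * M := by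
      rw [Finset.sum_congr rfl fun i _ => (rew_sq_integrable μ lam s hx2 i).2]
      simp [hM]
    rw [h10]
    simp
  rw [h9] at h8
  have h11 : (1 / K) * ((1 / (n : ℝ)) * (n * M)) = M / K := by field_simp
  rw [h11, integral_div] at h8
  have h12 : (nu μ).real S * K ≤ ε / 3 := by
    have h13 : (nu μ).real S ≤ ε / (3 * K) := hn.le
    calc _ ≤ ε / (3 * K) * K := mul_le_mul_of_nonneg_right h13 hK0.le
      _ = ε / 3 := by field_simp
  rw [← div_le_iff₀ hn0]
  linarith

theorem log_small (ε : ℝ) (hε : 0 < ε) : ∀ᶠ n : ℕ in atTop, Real.log (2 * n) ≤ ε * n := by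
  have h1 : Tendsto (fun x : ℝ => Real.log x / x) atTop (𝓝 0) :=
    Real.isLittleO_log_id_atTop.tendsto_div_nhds_zero
  have h2 : Tendsto (fun n : ℕ => 2 * (n : ℝ)) atTop atTop :=
    tendsto_natCast_atTop_atTop.const_mul_atTop (by norm_num)
  have h3 := (h1.comp h2).eventually (gt_mem_nhds (show 0 < ε / 2 by positivity))
  filter_upwards [h3, eventually_ge_atTop 1] with n hn hn1
  have hn0 : (0 : ℝ) < n := by exact_mod_cast hn1
  simp only [Function.comp_apply] at hn
  rw [div_lt_iff₀ (by positivity)] at hn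
  linarith

theorem mean_del (lam s h : ℝ) (hx : Integrable (fun x : ℝ => |x|) μ)
    (hm : ∀ ε : ℝ, 0 < ε → ∀ᶠ n : ℕ in atTop, ∫ y, LZ lam s h n y ∂(nu μ) ≤ ε * n) :
    Del μ lam s h := by
  intro ε hε
  rw [tendsto_order]
  refine ⟨fun a ha => Eventually.of_forall fun n => ha.trans_le measureReal_nonneg, ?_⟩
  intro r hr
  filter_upwards [hm (ε * r / 4) (by positivity), log_small (ε * r / 4) (by positivity),
    log_small (ε / 2) (by positivity), eventually_ge_atTop 1] with n h1 h2 h3 hn1
  have hn0 : (0 : ℝ) < n := by exact_mod_cast hn1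
  have hsub : {y | ε ≤ |LZ lam s h n y / n|} ⊆
      {y | ε * n ≤ LZ lam s h n y + Real.log (2 * n)} := by
    intro y hy
    simp only [Set.mem_ofPred_eq] at hy ⊢
    have h4 := LZ_ge lam s h n hn1 y
    have h6 : 0 ≤ Real.log (2 * n) := by
      apply Real.log_nonneg
      have : (1 : ℝ) ≤ n := by exact_mod_cast hn1
      linarith
    rcases le_total 0 (LZ lam s h n y / n) with h5 | h5
    · rw [abs_of_nonneg h5, le_div_iff₀ hn0] at hy
      linarith
    · rw [abs_of_nonpos h5, ← neg_div, le_div_iff₀ hn0] at hy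
      have : 0 < ε * n := by positivity
      linarith
  have hI : Integrable (fun y => LZ lam s h n y + Real.log (2 * n)) (nu μ) :=
    (LZ_integrable μ lam s h hx n).add (integrable_const _)
  have h7 := mul_meas_ge_le_integral_of_nonneg (μ := nu μ)
    (f := fun y => LZ lam s h n y + Real.log (2 * n))
    (Eventually.of_forall fun y => by
      have := LZ_ge lam s h n hn1 y
      simp only [Pi.zero_apply]
      linarith) hI (ε * n)
  have h8 : (nu μ).real {y | ε ≤ |LZ lam s h n y / n|} ≤
      (nu μ).real {y | ε * n ≤ LZ lam s h n y + Real.log (2 * n)} :=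
    measureReal_mono hsub
  have h9 : ∫ y, (LZ lam s h n y + Real.log (2 * n)) ∂(nu μ) =
      ∫ y, LZ lam s h n y ∂(nu μ) + Real.log (2 * n) := by
    rw [integral_add (LZ_integrable μ lam s h hx n) (integrable_const _)]
    simp
  rw [h9] at h7
  have h10 : ε * n * (nu μ).real {y | ε * n ≤ LZ lam s h n y + Real.log (2 * n)} ≤
      ε * n * (r / 2) := by
    refine h7.trans ?_
    linarith
  have h11 := le_of_mul_le_mul_left h10 (by positivity)
  linarith

/-- positivity of the probability of nonnegative disorder -/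
theorem q_pos (hx : Integrable (fun x : ℝ => x) μ) (hmean : ∫ x, x ∂μ = 0) :
    0 < μ.real (Set.Ici 0) := by
  by_contra hcon
  have h0 : μ.real (Set.Ici (0 : ℝ)) = 0 := le_antisymm (not_lt.1 hcon) measureReal_nonneg
  have h1 : μ (Set.Ici (0 : ℝ)) = 0 := (measureReal_eq_zero_iff).1 h0
  have h2 : ∀ᵐ x ∂μ, x < 0 := by
    rw [ae_iff]
    convert h1 using 2
    ext x
    simp
  have h3 : ∫ x, -x ∂μ = 0 := by rw [integral_neg, hmean, neg_zero]
  have h4 := (integral_eq_zero_iff_of_nonneg_ae (h2.mono fun x hx => by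
    simp only [Pi.zero_apply, Pi.neg_apply]; linarith) hx.neg).1 h3
  have h5 : ∀ᵐ x ∂μ, False := by
    filter_upwards [h2, h4] with x h6 h7
    simp only [Pi.zero_apply, Pi.neg_apply] at h7
    linarith
  simp at h5
  exact IsProbabilityMeasure.ne_zero μ h5

/-- the main step: a delocalized point forces delocalized points at larger `lam` -/
theorem main_step (hmean : ∫ x, x ∂μ = 0) (s : ℝ) (hs : 0 < s) (lamc θ : ℝ) (hl : 0 ≤ lamc)
    (hθ : s * lamc < θ) (hexp : Integrable (fun x : ℝ => Real.exp (θ * |x|)) μ) (h : ℝ)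
    (hh : 0 ≤ h) (hD : Del μ lamc s h) :
    ∃ lam, lamc < lam ∧ Del μ lam s (h + 1) := by
  have hθ0 : 0 < θ := lt_of_le_of_lt (by positivity) hθ
  have hx : Integrable (fun x : ℝ => |x|) μ := by
    refine Integrable.mono' (hexp.const_mul (1 / θ)) (by fun_prop) (Eventually.of_forall fun x => ?_)
    rw [Real.norm_eq_abs, abs_abs]
    have h1 := Real.add_one_le_exp (θ * |x|)
    rw [one_div_mul_eq_div, le_div_iff₀ hθ0]
    linarith
  have hx' : Integrable (fun x : ℝ => x) μ := by
    refine Integrable.mono' hx (by fun_prop) (Eventually.of_forall fun x => ?_)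
    rw [Real.norm_eq_abs]
  have hx2 : Integrable (fun x : ℝ => (lamc * (1 + s * x)) ^ 2) μ := by
    refine Integrable.mono' (hexp.const_mul ((lamc * (1 + s / θ)) ^ 2 * 2)) (by fun_prop)
      (Eventually.of_forall fun x => ?_)
    rw [Real.norm_eq_abs, abs_of_nonneg (by positivity)]
    have h1 : (1 + s * x) ^ 2 ≤ ((1 + s / θ) * (1 + θ * |x|)) ^ 2 := by
      apply sq_le_sq'
      · have h2 : -(s * |x|) ≤ s * x := by
          have := mul_le_mul_of_nonneg_left (neg_abs_le x) hs.le
          linarith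
        have h3 : (1 + s / θ) * (1 + θ * |x|) = 1 + s / θ + θ * |x| + s * |x| := by
          field_simp
          ring
        have h4 : 0 ≤ s / θ + θ * |x| := by positivity
        rw [h3]
        linarith
      · have h2 : s * x ≤ s * |x| := mul_le_mul_of_nonneg_left (le_abs_self x) hs.le
        have h3 : (1 + s / θ) * (1 + θ * |x|) = 1 + s / θ + θ * |x| + s * |x| := by
          field_simp
          ring
        have h4 : 0 ≤ s / θ + θ * |x| := by positivity
        rw [h3]
        linarith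
    have h5 : (1 + θ * |x|) ^ 2 ≤ 2 * Real.exp (θ * |x|) := by
      have := Real.quadratic_le_exp_of_nonneg (show 0 ≤ θ * |x| by positivity)
      nlinarith
    calc (lamc * (1 + s * x)) ^ 2 = lamc ^ 2 * (1 + s * x) ^ 2 := by ring
      _ ≤ lamc ^ 2 * ((1 + s / θ) * (1 + θ * |x|)) ^ 2 :=
          mul_le_mul_of_nonneg_left h1 (by positivity)
      _ = (lamc * (1 + s / θ)) ^ 2 * (1 + θ * |x|) ^ 2 := by ring
      _ ≤ (lamc * (1 + s / θ)) ^ 2 * (2 * Real.exp (θ * |x|)) :=
          mul_le_mul_of_nonneg_left h5 (by positivity)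
      _ = _ := by ring
  obtain ⟨κ, hκ0, hκ⟩ : ∃ κ : ℝ, 0 < κ ∧ s * lamc + 2 * κ = θ :=
    ⟨(θ - s * lamc) / 2, by linarith, by ring⟩
  set q := μ.real (Set.Ici (0 : ℝ)) with hq
  have hq0 : 0 < q := q_pos μ hx' hmean
  set B := 2 * (1 + s / κ) with hB
  set A := B * ∫ x, Real.exp (θ * |x|) ∂μ with hA
  have hA0 : 0 ≤ A := mul_nonneg (by positivity) (integral_nonneg fun x => (Real.exp_pos _).le)
  set C3 := A / q * (1 + 4 * (A / q)) with hC3
  have hC30 : 0 ≤ C3 := by positivity
  set c := (2 * (h + 1 - h)) / (1 + Real.exp (4 * (h + 1))) with hc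
  have hc0 : 0 < c := by
    rw [hc]
    have : h + 1 - h = 1 := by ring
    rw [this]
    positivity
  set δ := min (κ / s) (c / (C3 + 1)) with hδ
  have hδ0 : 0 < δ := lt_min (by positivity) (by positivity)
  have hδs : s * δ ≤ κ := by
    have := mul_le_mul_of_nonneg_left (min_le_left (κ / s) (c / (C3 + 1))) hs.le
    rw [← hδ] at this
    calc s * δ ≤ s * (κ / s) := this
      _ = κ := by field_simp
  have hδc : δ * C3 ≤ c := by
    have h1 := mul_le_mul_of_nonneg_right (min_le_right (κ / s) (c / (C3 + 1))) hC30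
    rw [← hδ] at h1
    refine h1.trans ?_
    rw [div_mul_eq_mul_div, div_le_iff₀ (by positivity)]
    nlinarith
  have hdom : ∀ x : ℝ, (1 + s * |x|) * (1 + Real.exp ((lamc + δ) * s * |x|)) ≤
      B * Real.exp (θ * |x|) := by
    intro x
    have h1 : Real.exp ((lamc + δ) * s * |x|) ≤ Real.exp ((s * lamc + κ) * |x|) := by
      apply Real.exp_le_exp.2
      apply mul_le_mul_of_nonneg_right _ (abs_nonneg x)
      linarith
    have h2 : 1 ≤ Real.exp ((s * lamc + κ) * |x|) := Real.one_le_exp (by positivity)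
    have h3 : 1 + s * |x| ≤ (1 + s / κ) * Real.exp (κ * |x|) := by
      have h4 := Real.add_one_le_exp (κ * |x|)
      have h5 : (1 + s / κ) * (κ * |x| + 1) = 1 + s * |x| + (s / κ + κ * |x|) := by
        field_simp
        ring
      have h6 : 0 ≤ s / κ + κ * |x| := by positivity
      have h7 := mul_le_mul_of_nonneg_left h4 (show 0 ≤ 1 + s / κ by positivity)
      linarith
    calc (1 + s * |x|) * (1 + Real.exp ((lamc + δ) * s * |x|))
        ≤ ((1 + s / κ) * Real.exp (κ * |x|)) * (2 * Real.exp ((s * lamc + κ) * |x|)) :=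
          mul_le_mul h3 (by linarith) (by positivity) (by positivity)
      _ = B * (Real.exp (κ * |x|) * Real.exp ((s * lamc + κ) * |x|)) := by rw [hB]; ring
      _ = B * Real.exp (θ * |x|) := by
          rw [← Real.exp_add, ← hκ]
          ring_nf
  have hint : Integrable (fun x : ℝ => (1 + s * |x|) * (1 + Real.exp ((lamc + δ) * s * |x|))) μ := by
    refine Integrable.mono' (hexp.const_mul B) (by fun_prop) (Eventually.of_forall fun x => ?_)
    rw [Real.norm_eq_abs, abs_of_nonneg (by positivity)]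
    exact hdom x
  have hAle : ∫ x, (1 + s * |x|) * (1 + Real.exp ((lamc + δ) * s * |x|)) ∂μ ≤ A := by
    rw [hA, ← integral_const_mul]
    exact integral_mono hint (hexp.const_mul B) hdom
  refine ⟨lamc + δ, by linarith, mean_del μ (lamc + δ) s (h + 1) hx fun ε hε => ?_⟩
  have hev1 := del_mean μ lamc s h hh hx hx2 hD (ε / 2) (by positivity)
  have hev2 : ∀ᶠ n : ℕ in atTop, 2 * δ * A ≤ ε / 2 * n :=
    (tendsto_natCast_atTop_atTop.const_mul_atTop (show 0 < ε / 2 by positivity)).eventually_ge_atTop _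
  filter_upwards [hev1, hev2] with n h1 h2
  have h3 := mean_cmp μ s lamc (lamc + δ) A q h (h + 1) hs.le hl (by linarith) (by linarith) hx hint
    hAle hq0 le_rfl (by rw [add_sub_cancel_left]; exact hδc) n
  rw [add_sub_cancel_left] at h3
  linarith

end Pool.Agent.X88.PC
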