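import Pool.Agent.X88.PC.Env

set_option autoImplicit false

/-!
The comparison of the mean free energies.
-/

open Finset MeasureTheory

namespace Pool.Agent.X88.PC

/-- the rewards -/
noncomputable def rew (lam s : ℝ) (y : ℕ → ℝ) (j : ℕ) : ℝ := lam * (1 + s * y j)

theorem rew_update (lam s : ℝ) (y : ℕ → ℝ) (j : ℕ) (x : ℝ) :
    rew lam s (Function.update y j x) =
      Function.update (Function.update (rew lam s y) j 0) j (lam * (1 + s * x)) := by
  funext i
  by_cases hi : i = j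
  · subst hi
    simp [rew]
  · simp [rew, Function.update_of_ne hi]

theorem PS_measurable (lam s h : ℝ) (n : ℕ) (F : (ℕ → ℤ) → ℝ) :
    Measurable fun y : ℕ → ℝ => PS (rew lam s y) h n 0 F := by
  unfold PS
  refine Finset.measurable_sum _ fun e _ => ?_
  refine Measurable.mul_const (Real.measurable_exp.comp ?_) _
  unfold ham
  refine Finset.measurable_sum _ fun i _ => ?_
  refine Measurable.add_const ?_ _
  split_ifs
  · unfold rew
    exact measurable_const.mul (measurable_const.add (measurable_const.mul (measurable_pi_apply i)))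
  · exact measurable_const

theorem V_measurable (lam s h : ℝ) (n : ℕ) :
    Measurable fun y : ℕ → ℝ => V (rew lam s y) h n 0 := PS_measurable _ _ _ _ _

theorem av_measurable (lam s h : ℝ) (n : ℕ) (F : (ℕ → ℤ) → ℝ) :
    Measurable fun y : ℕ → ℝ => av (rew lam s y) h n F :=
  (PS_measurable _ _ _ _ _).div (V_measurable _ _ _ _)

theorem av_nonneg (u : ℕ → ℝ) (h : ℝ) (n : ℕ) (F : (ℕ → ℤ) → ℝ) (hF : ∀ w, 0 ≤ F w) :
    0 ≤ av u h n F := div_nonneg (PS_nonneg _ _ _ _ _ hF) (V_pos _ _ _ _).le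

theorem av_le_one (u : ℕ → ℝ) (h : ℝ) (n : ℕ) (F : (ℕ → ℤ) → ℝ) (hF : ∀ w, F w ≤ 1) :
    av u h n F ≤ 1 := by
  unfold av
  rw [div_le_one (V_pos _ _ _ _)]
  exact PS_mono _ _ _ _ _ _ hF

variable (μ : Measure ℝ) [IsProbabilityMeasure μ]

/-- the law of the i.i.d. sequence -/
noncomputable abbrev nu : Measure (ℕ → ℝ) := Measure.infinitePi fun _ : ℕ => μ

theorem update_measurable (j : ℕ) :
    Measurable fun p : ℝ × (ℕ → ℝ) => Function.update p.2 j p.1 := by
  rw [measurable_pi_iff]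
  intro i
  by_cases hi : i = j
  · subst hi
    simp only [Function.update_self]
    exact measurable_fst
  · simp only [Function.update_of_ne hi]
    exact (measurable_pi_apply i).comp measurable_snd

theorem integral_resample (j : ℕ) (Ψ : (ℕ → ℝ) → ℝ) (hm : Measurable Ψ)
    (hi : Integrable Ψ (nu μ)) :
    ∫ y, Ψ y ∂(nu μ) = ∫ y, ∫ x, Ψ (Function.update y j x) ∂μ ∂(nu μ) ∧
    Integrable (fun y => ∫ x, Ψ (Function.update y j x) ∂μ) (nu μ) := by
  have h1 : (μ.prod (nu μ)).map (fun p : ℝ × (ℕ → ℝ) => Function.update p.2 j p.1) = nu μ :=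
    resample μ j
  have hi' : Integrable (fun p : ℝ × (ℕ → ℝ) => Ψ (Function.update p.2 j p.1))
      (μ.prod (nu μ)) := by
    rw [← h1] at hi
    exact hi.comp_measurable (update_measurable j)
  constructor
  · conv_lhs => rw [← h1]
    rw [integral_map (update_measurable j).aemeasurable hm.aestronglyMeasurable]
    exact integral_prod_symm _ hi'
  · exact hi'.integral_prod_right

theorem coord_mono (j : ℕ) (Ψ1 Ψ2 : (ℕ → ℝ) → ℝ) (hm1 : Measurable Ψ1) (hm2 : Measurable Ψ2)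
    (hi1 : Integrable Ψ1 (nu μ)) (hi2 : Integrable Ψ2 (nu μ)) (C : ℝ)
    (h : ∀ y, ∫ x, Ψ1 (Function.update y j x) ∂μ ≤ C * ∫ x, Ψ2 (Function.update y j x) ∂μ) :
    ∫ y, Ψ1 y ∂(nu μ) ≤ C * ∫ y, Ψ2 y ∂(nu μ) := by
  obtain ⟨e1, i1⟩ := integral_resample μ j Ψ1 hm1 hi1
  obtain ⟨e2, i2⟩ := integral_resample μ j Ψ2 hm2 hi2
  rw [e1, e2, ← integral_const_mul]
  exact integral_mono i1 (i2.const_mul C) h

theorem integral_coord (j : ℕ) (f : ℝ → ℝ) (hf : Integrable f μ) (hfm : Measurable f) :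
    Integrable (fun y : ℕ → ℝ => f (y j)) (nu μ) ∧ ∫ y, f (y j) ∂(nu μ) = ∫ x, f x ∂μ := by
  have h1 : (nu μ).map (fun y => y j) = μ := Measure.infinitePi_map_eval (fun _ : ℕ => μ) j
  have hm : Measurable fun y : ℕ → ℝ => y j := measurable_pi_apply j
  constructor
  · have : Integrable f ((nu μ).map (fun y => y j)) := by rw [h1]; exact hf
    exact this.comp_measurable hm
  · conv_rhs => rw [← h1]
    rw [integral_map hm.aemeasurable hfm.aestronglyMeasurable]

theorem av_integrable (lam s h : ℝ) (n : ℕ) (F : (ℕ → ℤ) → ℝ) (h0 : ∀ w, 0 ≤ F w)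
    (h1 : ∀ w, F w ≤ 1) : Integrable (fun y : ℕ → ℝ => av (rew lam s y) h n F) (nu μ) :=
  Integrable.mono' (integrable_const (1 : ℝ)) (av_measurable lam s h n F).aestronglyMeasurable
    (Filter.Eventually.of_forall fun y => by
      rw [Real.norm_eq_abs, abs_of_nonneg (av_nonneg _ _ _ _ h0)]
      exact av_le_one _ _ _ _ h1)

theorem oP_nonneg (j : ℕ) (w : ℕ → ℤ) : 0 ≤ oP j w := by unfold oP; split_ifs <;> norm_num
theorem oP_le (j : ℕ) (w : ℕ → ℤ) : oP j w ≤ 1 := by unfold oP; split_ifs <;> norm_num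
theorem oN_nonneg (j : ℕ) (w : ℕ → ℤ) : 0 ≤ oN j w := by unfold oN; split_ifs <;> norm_num
theorem oX_nonneg (j : ℕ) (w : ℕ → ℤ) : 0 ≤ oX j w := by unfold oX; split_ifs <;> norm_num
theorem oX_le (j : ℕ) (w : ℕ → ℤ) : oX j w ≤ 1 := by unfold oX; split_ifs <;> norm_num
theorem oY_nonneg (j : ℕ) (w : ℕ → ℤ) : 0 ≤ oY j w := by unfold oY; split_ifs <;> norm_num
theorem oY_le (j : ℕ) (w : ℕ → ℤ) : oY j w ≤ 1 := by unfold oY; split_ifs <;> norm_num

theorem oP_split (j : ℕ) (w : ℕ → ℤ) : oP j w = oX j w + oY j w := by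
  unfold oP oX oY
  by_cases h1 : w j = 0 <;> by_cases h2 : w (j + 2) = 0 <;> simp [h1, h2]

theorem ab_pos (u : ℕ → ℝ) (h : ℝ) (n j : ℕ) : 0 < PS u h n 0 (oP j) + PS u h n 0 (oN j) := by
  rw [← V_split]
  exact V_pos _ _ _ _

section

variable (s lam A q h : ℝ) (hs : 0 ≤ s) (hlam : 0 ≤ lam)
  (hint : Integrable (fun x => (1 + s * |x|) * (1 + Real.exp (lam * s * |x|))) μ)
  (hA : ∫ x, (1 + s * |x|) * (1 + Real.exp (lam * s * |x|)) ∂μ ≤ A)
  (hq : 0 < q) (hq2 : q ≤ μ.real (Set.Ici 0)) (n : ℕ)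

include hs hlam hint hA hq hq2

theorem stepA (hi1 : ∀ j, Integrable (fun y : ℕ → ℝ =>
      (1 + s * y j) * av (rew lam s y) h n (oP (j + 1))) (nu μ)) (j : ℕ) (hj : j < n) :
    ∫ y, (1 + s * y j) * av (rew lam s y) h n (oP (j + 1)) ∂(nu μ) ≤
      A / q * ∫ y, av (rew lam s y) h n (oP (j + 1)) ∂(nu μ) := by
  refine coord_mono μ j _ _ ?_ (av_measurable _ _ _ _ _) (hi1 j)
    (av_integrable μ lam s h n _ (oP_nonneg _) (oP_le _)) _ ?_
  · exact (measurable_const.add (measurable_const.mul (measurable_pi_apply j))).mul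
      (av_measurable _ _ _ _ _)
  · intro y
    set u0 := Function.update (rew lam s y) j 0 with hu0
    have hav : ∀ x, av (rew lam s (Function.update y j x)) h n (oP (j + 1)) =
        PS u0 h n 0 (oP (j + 1)) * Real.exp (lam * (1 + s * x)) /
        (PS u0 h n 0 (oP (j + 1)) * Real.exp (lam * (1 + s * x)) + PS u0 h n 0 (oN (j + 1))) := by
      intro x
      unfold av
      rw [rew_update, V_update _ _ _ _ hj,
        PS_update_on _ _ _ _ hj _ _ (by intro w hw; unfold oP; rw [if_neg hw])]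
      have : Function.update (rew lam s y) j 0 j = 0 := Function.update_self _ _ _
      rw [this, sub_zero, mul_comm]
    simp only [hav, Function.update_self]
    exact int_one μ s lam A hs hlam hint hA q hq hq2 _ _
      (PS_nonneg _ _ _ _ _ (oP_nonneg _)) (PS_nonneg _ _ _ _ _ (oN_nonneg _)) (ab_pos _ _ _ _)

theorem stepB (j : ℕ) (hj : j + 2 < n) :
    ∫ y, av (rew lam s y) h n (oX (j + 1)) ∂(nu μ) ≤
      (4 * (A / q)) * ∫ y, av (rew lam s y) h n (oY (j + 1)) ∂(nu μ) := by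
  refine coord_mono μ (j + 2) _ _ (av_measurable _ _ _ _ _) (av_measurable _ _ _ _ _)
    (av_integrable μ lam s h n _ (oX_nonneg _) (oX_le _))
    (av_integrable μ lam s h n _ (oY_nonneg _) (oY_le _)) _ ?_
  intro y
  set u0 := Function.update (rew lam s y) (j + 2) 0 with hu0
  have hz : u0 (j + 2) = 0 := Function.update_self _ _ _
  have havX : ∀ x, av (rew lam s (Function.update y (j + 2) x)) h n (oX (j + 1)) =
      PS u0 h n 0 (oX (j + 1)) * (1 / (PS u0 h n 0 (oP (j + 2 + 1)) *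
        Real.exp (lam * (1 + s * x)) + PS u0 h n 0 (oN (j + 2 + 1)))) := by
    intro x
    unfold av
    rw [rew_update, V_update _ _ _ _ hj,
      PS_update_off _ _ _ _ hj _ _ (by
        intro w hw
        unfold oX
        rw [if_neg]
        rintro ⟨-, h2⟩
        exact h2 hw)]
    rw [← hu0, hz, sub_zero]
    ring
  have havY : ∀ x, av (rew lam s (Function.update y (j + 2) x)) h n (oY (j + 1)) =
      PS u0 h n 0 (oY (j + 1)) * (Real.exp (lam * (1 + s * x)) / (PS u0 h n 0 (oP (j + 2 + 1)) *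
        Real.exp (lam * (1 + s * x)) + PS u0 h n 0 (oN (j + 2 + 1)))) := by
    intro x
    unfold av
    rw [rew_update, V_update _ _ _ _ hj,
      PS_update_on _ _ _ _ hj _ _ (by
        intro w hw
        unfold oY
        rw [if_neg]
        rintro ⟨-, h2⟩
        exact hw h2)]
    rw [← hu0, hz, sub_zero]
    ring
  simp only [havX, havY]
  rw [integral_const_mul, integral_const_mul]
  have h1 := int_two μ s lam A hs hlam hint hA q hq hq2 (PS u0 h n 0 (oP (j + 2 + 1)))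
    (PS u0 h n 0 (oN (j + 2 + 1))) (PS_nonneg _ _ _ _ _ (oP_nonneg _))
    (PS_nonneg _ _ _ _ _ (oN_nonneg _)) (ab_pos _ _ _ _)
  have h2 : PS u0 h n 0 (oX (j + 1)) ≤ 4 * PS u0 h n 0 (oY (j + 1)) := by
    have := X_le_Y h (j + 1) u0 n 0 (by omega)
    rw [show j + 1 + 1 = j + 2 by ring, hz] at this
    simpa using this
  have hX0 : 0 ≤ PS u0 h n 0 (oX (j + 1)) := PS_nonneg _ _ _ _ _ (oX_nonneg _)
  have hA0 : 0 ≤ A := le_trans (integral_nonneg fun x => by positivity) hA
  have hI : 0 ≤ ∫ x, Real.exp (lam * (1 + s * x)) / (PS u0 h n 0 (oP (j + 2 + 1)) *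
        Real.exp (lam * (1 + s * x)) + PS u0 h n 0 (oN (j + 2 + 1))) ∂μ := by
    apply integral_nonneg
    intro x
    have p1 := PS_nonneg u0 h n 0 _ (oP_nonneg (j + 2 + 1))
    have p2 := PS_nonneg u0 h n 0 _ (oN_nonneg (j + 2 + 1))
    simp only [Pi.zero_apply]
    positivity
  calc _ ≤ PS u0 h n 0 (oX (j + 1)) * (A / q * ∫ x, Real.exp (lam * (1 + s * x)) /
        (PS u0 h n 0 (oP (j + 2 + 1)) *
        Real.exp (lam * (1 + s * x)) + PS u0 h n 0 (oN (j + 2 + 1))) ∂μ) :=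
        mul_le_mul_of_nonneg_left h1 hX0
    _ ≤ (4 * PS u0 h n 0 (oY (j + 1))) * (A / q * ∫ x, Real.exp (lam * (1 + s * x)) /
        (PS u0 h n 0 (oP (j + 2 + 1)) *
        Real.exp (lam * (1 + s * x)) + PS u0 h n 0 (oN (j + 2 + 1))) ∂μ) := by
          apply mul_le_mul_of_nonneg_right h2
          positivity
    _ = _ := by ring

theorem stepC (hi1 : ∀ j, Integrable (fun y : ℕ → ℝ =>
      (1 + s * y j) * av (rew lam s y) h n (oP (j + 1))) (nu μ)) (j : ℕ) (hj : j + 2 < n) :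
    ∫ y, (1 + s * y j) * av (rew lam s y) h n (oP (j + 1)) ∂(nu μ) ≤
      (A / q * (1 + 4 * (A / q))) * ∫ y, av (rew lam s y) h n (oY (j + 1)) ∂(nu μ) := by
  have h1 := stepA μ s lam A q h hs hlam hint hA hq hq2 n hi1 j (by omega)
  have h2 := stepB μ s lam A q h hs hlam hint hA hq hq2 n j hj
  have hA0 : 0 ≤ A := le_trans (integral_nonneg fun x => by positivity) hA
  have h3 : ∫ y, av (rew lam s y) h n (oP (j + 1)) ∂(nu μ) =
      ∫ y, av (rew lam s y) h n (oX (j + 1)) ∂(nu μ) +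
      ∫ y, av (rew lam s y) h n (oY (j + 1)) ∂(nu μ) := by
    rw [← integral_add (av_integrable μ lam s h n _ (oX_nonneg _) (oX_le _))
      (av_integrable μ lam s h n _ (oY_nonneg _) (oY_le _))]
    congr 1
    funext y
    unfold av
    rw [← add_div, ← PS_add]
    congr 2
    funext w
    exact oP_split _ _
  rw [h3] at h1
  refine h1.trans ?_
  have h4 : 0 ≤ A / q := by positivity
  have h5 := mul_le_mul_of_nonneg_left h2 h4
  linarith

end

end Pool.Agent.X88.PC
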