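import Mathlib

set_option autoImplicit false

/-!
Path sums of the simple random walk with rewards at zero and a sign term for the edges.
-/

open Finset

namespace Pool.Agent.X88.PC

/-- the step belonging to a coin -/
def stp (b : Bool) : ℤ := if b then 1 else -1

/-- the walk started at `x` with the coins `e`: its position at time `i` -/
def walk {n : ℕ} (x : ℤ) (e : Fin n → Bool) (i : ℕ) : ℤ :=
  x + ∑ j : Fin n, if (j : ℕ) < i then stp (e j) else 0

/-- the energy: `u i` is the reward for a visit to zero at time `i+1` -/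
noncomputable def ham (u : ℕ → ℝ) (h : ℝ) (n : ℕ) (w : ℕ → ℤ) : ℝ :=
  ∑ i ∈ range n, ((if w (i + 1) = 0 then u i else 0) + h * ((Int.sign (w i + w (i + 1)) : ℤ) : ℝ))

/-- the path sum of the observable `F` -/
noncomputable def PS (u : ℕ → ℝ) (h : ℝ) (n : ℕ) (x : ℤ) (F : (ℕ → ℤ) → ℝ) : ℝ :=
  ∑ e : Fin n → Bool, Real.exp (ham u h n (walk x e)) * F (walk x e)

/-- put `x` in front of a sequence -/
def ncons (x : ℤ) (w : ℕ → ℤ) : ℕ → ℤ
  | 0 => x
  | i + 1 => w i

theorem walk_zero {n : ℕ} (x : ℤ) (e : Fin n → Bool) : walk x e 0 = x := by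
  simp [walk]

theorem walk_cons {n : ℕ} (x : ℤ) (b : Bool) (e : Fin n → Bool) :
    walk x (Fin.cons b e : Fin (n + 1) → Bool) = ncons x (walk (x + stp b) e) := by
  funext i
  cases i with
  | zero => simp [walk, ncons]
  | succ i =>
    simp only [walk, ncons, Fin.sum_univ_succ, Fin.val_zero, Fin.cons_zero, Fin.val_succ,
      Fin.cons_succ, Nat.zero_lt_succ, if_true, add_lt_add_iff_right]
    ring

theorem ham_cons (u : ℕ → ℝ) (h : ℝ) (n : ℕ) (x : ℤ) (w : ℕ → ℤ) :
    ham u h (n + 1) (ncons x w) = ((if w 0 = 0 then u 0 else 0) +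
      h * ((Int.sign (x + w 0) : ℤ) : ℝ)) + ham (fun i => u (i + 1)) h n w := by
  unfold ham
  rw [Finset.sum_range_succ']
  simp only [ncons]
  rw [add_comm]
  rfl

/-- the weight of a first step -/
noncomputable def fw (u0 h : ℝ) (x : ℤ) (b : Bool) : ℝ :=
  Real.exp ((if x + stp b = 0 then u0 else 0) + h * ((Int.sign (x + (x + stp b)) : ℤ) : ℝ))

theorem fw_pos (u0 h : ℝ) (x : ℤ) (b : Bool) : 0 < fw u0 h x b := Real.exp_pos _

theorem PS_zero (u : ℕ → ℝ) (h : ℝ) (x : ℤ) (F : (ℕ → ℤ) → ℝ) :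
    PS u h 0 x F = F (fun _ => x) := by
  unfold PS
  have hw : ∀ e : Fin 0 → Bool, walk x e = fun _ => x := by
    intro e
    funext i
    simp [walk]
  simp [hw, ham]

theorem PS_succ (u : ℕ → ℝ) (h : ℝ) (n : ℕ) (x : ℤ) (F : (ℕ → ℤ) → ℝ) :
    PS u h (n + 1) x F = ∑ b : Bool, fw (u 0) h x b *
      PS (fun i => u (i + 1)) h n (x + stp b) (fun w => F (ncons x w)) := by
  unfold PS
  rw [← (Fin.consEquiv (fun _ : Fin (n + 1) => Bool)).sum_comp, Fintype.sum_prod_type]
  refine Finset.sum_congr rfl fun b _ => ?_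
  rw [Finset.mul_sum]
  refine Finset.sum_congr rfl fun e _ => ?_
  have h1 : (Fin.consEquiv (fun _ : Fin (n + 1) => Bool)) (b, e) =
      (Fin.cons b e : Fin (n + 1) → Bool) := rfl
  rw [h1, walk_cons, ham_cons, walk_zero, Real.exp_add]
  unfold fw
  ring

theorem PS_nonneg (u : ℕ → ℝ) (h : ℝ) (n : ℕ) (x : ℤ) (F : (ℕ → ℤ) → ℝ) (hF : ∀ w, 0 ≤ F w) :
    0 ≤ PS u h n x F :=
  Finset.sum_nonneg fun _ _ => mul_nonneg (Real.exp_pos _).le (hF _)

theorem PS_mono (u : ℕ → ℝ) (h : ℝ) (n : ℕ) (x : ℤ) (F G : (ℕ → ℤ) → ℝ) (hF : ∀ w, F w ≤ G w) :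
    PS u h n x F ≤ PS u h n x G :=
  Finset.sum_le_sum fun _ _ => mul_le_mul_of_nonneg_left (hF _) (Real.exp_pos _).le

/-- the partition sum started at `x` -/
noncomputable def V (u : ℕ → ℝ) (h : ℝ) (n : ℕ) (x : ℤ) : ℝ := PS u h n x fun _ => 1

theorem V_pos (u : ℕ → ℝ) (h : ℝ) (n : ℕ) (x : ℤ) : 0 < V u h n x := by
  unfold V PS
  refine Finset.sum_pos (fun _ _ => by positivity) ?_
  exact ⟨fun _ => true, Finset.mem_univ _⟩

theorem V_zero (u : ℕ → ℝ) (h : ℝ) (x : ℤ) : V u h 0 x = 1 := PS_zero _ _ _ _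

theorem V_succ (u : ℕ → ℝ) (h : ℝ) (n : ℕ) (x : ℤ) :
    V u h (n + 1) x = fw (u 0) h x true * V (fun i => u (i + 1)) h n (x + 1) +
      fw (u 0) h x false * V (fun i => u (i + 1)) h n (x - 1) := by
  unfold V
  rw [PS_succ]
  simp only [Fintype.sum_bool, stp, if_true]
  rfl

/-- weights of steps above zero -/
theorem fw_up (u0 h : ℝ) (x : ℤ) (hx : 0 ≤ x) : fw u0 h x true = Real.exp h := by
  unfold fw
  have h1 : Int.sign (x + (x + stp true)) = 1 := Int.sign_eq_one_of_pos (by simp [stp]; omega)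
  have h2 : ¬ (x + stp true = 0) := by simp [stp]; omega
  rw [h1, if_neg h2]
  simp

theorem fw_down (u0 h : ℝ) (x : ℤ) (hx : 1 < x) : fw u0 h x false = Real.exp h := by
  unfold fw
  have h1 : Int.sign (x + (x + stp false)) = 1 := Int.sign_eq_one_of_pos (by simp [stp]; omega)
  have h2 : ¬ (x + stp false = 0) := by simp [stp]; omega
  rw [h1, if_neg h2]
  simp

theorem fw_down_one (u0 h : ℝ) : fw u0 h 1 false = Real.exp (u0 + h) := by
  unfold fw
  simp [stp]

theorem fw_down_zero (u0 h : ℝ) : fw u0 h 0 false = Real.exp (-h) := by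
  unfold fw
  simp [stp]

theorem fw_up_neg_one (u0 h : ℝ) : fw u0 h (-1) true = Real.exp (u0 - h) := by
  unfold fw
  simp [stp, sub_eq_add_neg]

/-- reflection -/
theorem fw_refl (u0 h : ℝ) (x : ℤ) (b : Bool) : fw u0 h x b = fw u0 (-h) (-x) (!b) := by
  unfold fw
  have h1 : stp (!b) = -stp b := by cases b <;> simp [stp]
  rw [h1]
  have h2 : (-x + -stp b = 0) ↔ (x + stp b = 0) := by constructor <;> intro h <;> omega
  have h3 : (-x + (-x + -stp b)) = -(x + (x + stp b)) := by ring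
  rw [h3, Int.sign_neg]
  simp only [h2]
  congr 2
  push_cast
  ring

theorem V_refl (n : ℕ) : ∀ (u : ℕ → ℝ) (h : ℝ) (x : ℤ), V u h n x = V u (-h) n (-x) := by
  induction n with
  | zero => intro u h x; rw [V_zero, V_zero]
  | succ n ih =>
    intro u h x
    rw [V_succ, V_succ, fw_refl _ h x true, fw_refl _ h x false, ih _ h (x + 1), ih _ h (x - 1)]
    rw [show -(x + 1) = -x - 1 by ring, show -(x - 1) = -x + 1 by ring]
    simp only [Bool.not_true, Bool.not_false]
    ring

/-- the ratio inequality above zero -/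
theorem V_ratio (n : ℕ) : ∀ (u : ℕ → ℝ) (h : ℝ) (x : ℤ), 1 ≤ x →
    (x : ℝ) * V u h n (x + 2) ≤ ((x : ℝ) + 2) * V u h n x := by
  induction n with
  | zero =>
    intro u h x hx
    rw [V_zero, V_zero]
    linarith
  | succ n ih =>
    intro u h x hx
    have hx' : (1 : ℝ) ≤ x := by exact_mod_cast hx
    set u' : ℕ → ℝ := fun i => u (i + 1) with hu'
    have e := Real.exp_pos h
    -- upper bound at x+2
    have h1 : V u h (n + 1) (x + 2) = Real.exp h * (V u' h n (x + 3) + V u' h n (x + 1)) := by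
      rw [V_succ, fw_up _ _ _ (by omega), fw_down _ _ _ (by omega)]
      rw [show x + 2 + 1 = x + 3 by ring, show x + 2 - 1 = x + 1 by ring]
      ring
    have h2 := ih u' h (x + 1) (by omega)
    rw [show x + 1 + 2 = x + 3 by ring] at h2
    push_cast at h2
    have h3 : V u h (n + 1) (x + 2) ≤ Real.exp h * (((2 * x + 4) / (x + 1)) * V u' h n (x + 1)) := by
      rw [h1]
      apply mul_le_mul_of_nonneg_left _ e.le
      have : V u' h n (x + 3) ≤ ((x + 1 + 2) / (x + 1)) * V u' h n (x + 1) := by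
        rw [div_mul_eq_mul_div, le_div_iff₀ (by linarith)]
        linarith
      have h4 : ((2 * (x : ℝ) + 4) / (x + 1)) = ((x + 1 + 2) / (x + 1)) + 1 := by
        field_simp
        ring
      rw [h4, add_mul, one_mul]
      linarith
    -- lower bound at x
    have h5 : Real.exp h * ((2 * x / (x + 1)) * V u' h n (x + 1)) ≤ V u h (n + 1) x := by
      rcases eq_or_lt_of_le hx with h6 | h6
      · subst h6
        rw [V_succ, fw_up _ _ _ (by norm_num)]
        have h7 : 0 ≤ fw (u 0) h 1 false * V u' h n (1 - 1) :=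
          mul_nonneg (fw_pos _ _ _ _).le (V_pos _ _ _ _).le
        norm_num at h7 ⊢
        linarith
      · have h8 := ih u' h (x - 1) (by omega)
        rw [show x - 1 + 2 = x + 1 by ring] at h8
        push_cast at h8
        rw [V_succ, fw_up _ _ _ (by omega), fw_down _ _ _ h6, ← mul_add]
        apply mul_le_mul_of_nonneg_left _ e.le
        have h9 : (((x : ℝ) - 1) / (x + 1)) * V u' h n (x + 1) ≤ V u' h n (x - 1) := by
          rw [div_mul_eq_mul_div, div_le_iff₀ (by linarith)]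
          linarith
        have h10 : (2 * (x : ℝ) / (x + 1)) = 1 + ((x : ℝ) - 1) / (x + 1) := by
          field_simp
          ring
        rw [h10, add_mul, one_mul]
        linarith
    have h11 : (x : ℝ) * (Real.exp h * (((2 * x + 4) / (x + 1)) * V u' h n (x + 1))) =
        (x + 2) * (Real.exp h * ((2 * x / (x + 1)) * V u' h n (x + 1))) := by
      field_simp
      ring
    calc (x : ℝ) * V u h (n + 1) (x + 2) ≤ x * (Real.exp h * (((2 * x + 4) / (x + 1)) *
          V u' h n (x + 1))) := mul_le_mul_of_nonneg_left h3 (by linarith)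
      _ = (x + 2) * (Real.exp h * ((2 * x / (x + 1)) * V u' h n (x + 1))) := h11
      _ ≤ _ := mul_le_mul_of_nonneg_left h5 (by linarith)

theorem V_two (u : ℕ → ℝ) (h : ℝ) (n : ℕ) : V u h n 2 ≤ 4 * V u h n 0 := by
  cases n with
  | zero => rw [V_zero, V_zero]; norm_num
  | succ n =>
    set u' : ℕ → ℝ := fun i => u (i + 1) with hu'
    have h1 := V_ratio n u' h 1 le_rfl
    rw [V_succ, V_succ, fw_up _ _ _ (by norm_num), fw_up _ _ _ (by norm_num),
      fw_down _ _ _ (by norm_num)]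
    have h2 : 0 ≤ fw (u 0) h 0 false * V u' h n (0 - 1) :=
      mul_nonneg (fw_pos _ _ _ _).le (V_pos _ _ _ _).le
    have e := Real.exp_pos h
    norm_num at h1 h2 ⊢
    have h3 := mul_le_mul_of_nonneg_left h1 e.le
    linarith

theorem V_neg_two (u : ℕ → ℝ) (h : ℝ) (n : ℕ) : V u h n (-2) ≤ 4 * V u h n 0 := by
  have h1 := V_two u (-h) n
  rw [V_refl n u h (-2), V_refl n u h 0]
  simpa using h1

/-- lower bound by the paths that stay above zero -/
theorem V_lower (n : ℕ) : ∀ (u : ℕ → ℝ) (h : ℝ) (x : ℕ), 1 ≤ x →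
    Real.exp (h * n) * 2 ^ n * (x / (x + n)) ≤ V u h n x := by
  induction n with
  | zero =>
    intro u h x hx
    have : (1 : ℝ) ≤ x := by exact_mod_cast hx
    rw [V_zero]
    have h1 : (x : ℝ) / (x + (0 : ℕ)) = 1 := by
      push_cast
      rw [add_zero, div_self (by linarith)]
    rw [h1]
    simp
  | succ n ih =>
    intro u h x hx
    set u' : ℕ → ℝ := fun i => u (i + 1) with hu'
    have hx' : (1 : ℝ) ≤ x := by exact_mod_cast hx
    have e := Real.exp_pos h
    have h1 := ih u' h (x + 1) (by omega)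
    push_cast at h1
    have hn : (0 : ℝ) ≤ n := Nat.cast_nonneg n
    have h2 : Real.exp h * (Real.exp (h * n) * 2 ^ n * (((x : ℝ) - 1) / (x + n + 1))) ≤
        fw (u 0) h x false * V u' h n (x - 1) := by
      rcases eq_or_lt_of_le hx with h6 | h6
      · subst h6
        have h7 : 0 ≤ fw (u 0) h ((1 : ℕ) : ℤ) false * V u' h n (((1 : ℕ) : ℤ) - 1) :=
          mul_nonneg (fw_pos _ _ _ _).le (V_pos _ _ _ _).le
        norm_num at h7 ⊢
        linarith
      · have h3 := ih u' h (x - 1) (by omega)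
        rw [fw_down _ _ _ (by exact_mod_cast h6)]
        apply mul_le_mul_of_nonneg_left _ e.le
        rw [Nat.cast_sub hx] at h3
        have h4 : ((x - 1 : ℕ) : ℤ) = (x : ℤ) - 1 := by omega
        rw [h4] at h3
        refine le_trans ?_ h3
        apply mul_le_mul_of_nonneg_left _ (by positivity)
        push_cast
        have h6' : (1 : ℝ) < x := by exact_mod_cast h6
        apply div_le_div_of_nonneg_left (by linarith) (by linarith) (by linarith)
    rw [V_succ, fw_up _ _ _ (by positivity)]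
    have h3 : Real.exp h * (Real.exp (h * n) * 2 ^ n * (((x : ℝ) + 1) / (x + n + 1))) ≤
        Real.exp h * V u' h n ((x : ℤ) + 1) := by
      apply mul_le_mul_of_nonneg_left _ e.le
      rw [show (x : ℝ) + n + 1 = x + 1 + n by ring]
      exact_mod_cast h1
    refine le_trans (le_of_eq ?_) (add_le_add h3 h2)
    rw [show h * ((n + 1 : ℕ) : ℝ) = h * n + h by push_cast; ring, Real.exp_add, pow_succ]
    push_cast
    have h8 : (x : ℝ) + (n + 1) ≠ 0 := by positivity
    have h9 : (x : ℝ) + n + 1 ≠ 0 := by positivity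
    rw [show (x : ℝ) + (n + 1) = x + n + 1 by ring]
    field_simp
    ring

theorem V_ge (u : ℕ → ℝ) (h : ℝ) (n : ℕ) (hn : 1 ≤ n) :
    Real.exp (h * n) * 2 ^ n / (2 * n) ≤ V u h n 0 := by
  obtain ⟨m, rfl⟩ : ∃ m, n = m + 1 := ⟨n - 1, by omega⟩
  set u' : ℕ → ℝ := fun i => u (i + 1) with hu'
  have h1 := V_lower m u' h 1 le_rfl
  rw [V_succ, fw_up _ _ _ le_rfl]
  have h2 : 0 ≤ fw (u 0) h 0 false * V u' h m (0 - 1) :=
    mul_nonneg (fw_pos _ _ _ _).le (V_pos _ _ _ _).le
  have e := Real.exp_pos h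
  have h3 := mul_le_mul_of_nonneg_left h1 e.le
  push_cast at h3
  have h4 : Real.exp (h * ((m + 1 : ℕ) : ℝ)) * 2 ^ (m + 1) / (2 * ((m + 1 : ℕ) : ℝ)) =
      Real.exp h * (Real.exp (h * m) * 2 ^ m * (1 / (1 + m))) := by
    rw [show h * ((m + 1 : ℕ) : ℝ) = h * m + h by push_cast; ring, Real.exp_add, pow_succ]
    push_cast
    field_simp
    ring
  rw [h4, zero_add]
  exact h3.trans (le_add_of_nonneg_right h2)

end Pool.Agent.X88.PC
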